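import Pool.Agent.MP_3d209c_an.H45.Cub

/-! Factors of homogeneous polynomials and dimension counts. -/

namespace Pool.Agent.MP_3d209c_an.H45

open Filter Topology Matrix Pool.Agent.MP_3d209c_an.H71 Pool.Agent.MP_3d209c_an.H61 Module

variable {n : ℕ}

theorem hom_of_mul {g h : MvPolynomial (Fin n) ℝ} {d : ℕ} (hd : (g * h).IsHomogeneous d)
    (h0 : g * h ≠ 0) : ∃ a, g.IsHomogeneous a := by
  let φ : MvPolynomial (Fin n) ℝ →ₐ[ℝ] Polynomial (MvPolynomial (Fin n) ℝ) :=
    MvPolynomial.aeval fun i => Polynomial.C (MvPolynomial.X i) * Polynomial.X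
  have hφ : ∀ p j, (φ p).coeff j = MvPolynomial.homogeneousComponent j p := fun p j => by
    induction p using MvPolynomial.induction_on' with
    | monomial m r =>
      have : φ (MvPolynomial.monomial m r) = Polynomial.monomial m.degree
          (MvPolynomial.monomial m r) := by
        rw [← Polynomial.C_mul_X_pow_eq_monomial, MvPolynomial.aeval_monomial,
          MvPolynomial.monomial_eq]
        simp only [Finsupp.prod, mul_pow, Finset.prod_mul_distrib, Finset.prod_pow_eq_pow_sum,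
          Finsupp.degree_apply, mul_assoc, Polynomial.algebraMap_apply, map_mul, map_prod, map_pow,
          MvPolynomial.algebraMap_eq]
      rw [this, Polynomial.coeff_monomial, MvPolynomial.homogeneousComponent_of_mem
        (MvPolynomial.isHomogeneous_monomial r rfl)]
      simp [eq_comm]
    | add p q hp hq => simp [hp, hq]
  have h1 : φ g * φ h = Polynomial.monomial d (g * h) := by
    ext1 j
    rw [← map_mul, hφ, MvPolynomial.homogeneousComponent_of_mem hd, Polynomial.coeff_monomial]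
    simp [eq_comm]
  obtain ⟨h2, h3⟩ := mul_ne_zero_iff.1 (h1 ▸ (Polynomial.monomial_eq_zero_iff _ d).not.2 h0)
  have h4 := Polynomial.natDegree_mul h2 h3
  have h5 := Polynomial.natTrailingDegree_mul h2 h3
  rw [h1, Polynomial.natDegree_monomial_eq _ h0] at h4
  rw [h1, Polynomial.natTrailingDegree_monomial h0] at h5
  have h6 := (φ g).natTrailingDegree_le_natDegree
  have h7 := (φ h).natTrailingDegree_le_natDegree
  refine ⟨(φ g).natDegree, ?_⟩
  have h8 : ∀ j, j ≠ (φ g).natDegree → MvPolynomial.homogeneousComponent j g = 0 := fun j hj => by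
    rw [← hφ]
    rcases hj.lt_or_gt with hj | hj
    · exact Polynomial.coeff_eq_zero_of_lt_natTrailingDegree (by omega)
    · exact Polynomial.coeff_eq_zero_of_natDegree_lt hj
  rw [← MvPolynomial.sum_homogeneousComponent g]
  refine MvPolynomial.IsHomogeneous.sum _ _ _ fun j _ => ?_
  rw [MvPolynomial.sum_homogeneousComponent g]
  by_cases hj : j = (φ g).natDegree
  · exact hj ▸ MvPolynomial.homogeneousComponent_isHomogeneous _ _
  · rw [h8 j hj]; exact MvPolynomial.isHomogeneous_zero _ _ _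

theorem quot_hom {f h : MvPolynomial (Fin n) ℝ} {d c : ℕ} (hf : f.IsHomogeneous d) (h0 : f ≠ 0)
    (hc : (f * h).IsHomogeneous c) : h = 0 ∨ ∃ b, h.IsHomogeneous b ∧ d + b = c := by
  by_cases hh : h = 0
  · exact Or.inl hh
  obtain ⟨b, hb⟩ := hom_of_mul (mul_comm f h ▸ hc) (mul_ne_zero hh h0)
  exact Or.inr ⟨b, hb, (hf.mul hb).inj_right hc (mul_ne_zero h0 hh)⟩

theorem mem_of_mul {V : Set (Fin n → ℝ)} (hV : V.Nonempty) {g h : MvPolynomial (Fin n) ℝ}
    (hd : g * h ∈ HV V) : g ∈ HV V := by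
  obtain ⟨e, he⟩ := hV
  obtain ⟨d, h1⟩ := hd.1
  refine ⟨hom_of_mul h1 fun h0 => (hd.2 e he).1 (by simp [h0]), fun x hx =>
    ⟨fun h0 => (hd.2 x hx).1 (by simp [h0]), fun α z hz => (hd.2 x hx).2 α z (by simp [hz])⟩⟩

theorem mul_memH {V : Set (Fin n → ℝ)} {g h : MvPolynomial (Fin n) ℝ} (hg : g ∈ HV V)
    (hh : h ∈ HV V) : g * h ∈ HV V := by
  obtain ⟨a, ha⟩ := hg.1
  obtain ⟨b, hb⟩ := hh.1
  refine ⟨⟨_, ha.mul hb⟩, fun x hx => ⟨by simp [(hg.2 x hx).1, (hh.2 x hx).1], fun α z hz => ?_⟩⟩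
  rw [map_mul] at hz
  exact (mul_eq_zero.1 hz).elim ((hg.2 x hx).2 α z) ((hh.2 x hx).2 α z)

theorem Flat.mul {V : Set (Fin n → ℝ)} (hV : V.Nonempty) {g h : MvPolynomial (Fin n) ℝ}
    (hg : Flat V g) (hh : h ∈ HV V) : Flat V (g * h) := by
  obtain ⟨d, g1, g2, h0, h1, h2, hi, hev⟩ := hg
  obtain ⟨b, hb⟩ := hh.1
  obtain ⟨e, he⟩ := hV
  have hne : h ≠ 0 := fun h0 => (hh.2 e he).1 (by simp [h0])
  refine ⟨_, g1 * h, g2 * h, h0.mul hb, h1.mul hb, h2.mul hb, ?_, hev.mono fun p hp => ?_⟩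
  · have := hi.map' (LinearMap.mulRight ℝ h) (LinearMap.ker_eq_bot.2 (mul_left_injective₀ hne))
    rwa [(funext fun i => by fin_cases i <;> rfl :
      (LinearMap.mulRight ℝ h) ∘ ![g, g1, g2] = ![g * h, g1 * h, g2 * h])] at this
  · simpa only [add_mul, smul_mul_assoc] using mul_memH hp hh

theorem exists_lin {f : MvPolynomial (Fin n) ℝ} (hf : f.IsHomogeneous 1) : ∃ w, f = lin w := by
  have : f ∈ Submodule.span ℝ (Set.range MvPolynomial.X) :=
    MvPolynomial.homogeneousSubmodule_one_eq_span_X (σ := Fin n) (R := ℝ) ▸ hf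
  obtain ⟨w, hw⟩ := (Submodule.mem_span_range_iff_exists_fun ℝ).1 this
  exact ⟨w, by rw [lin_eq, hw]⟩

theorem mult_span {f : MvPolynomial (Fin 3) ℝ} {k : ℕ} (hf : f.IsHomogeneous (k + 1)) (h0 : f ≠ 0)
    (hk : 1 ≤ k) : ∃ v : Fin ((4 - k).choose 2) → MvPolynomial (Fin 3) ℝ, ∀ c, c.IsHomogeneous 3 →
      f ∣ c → c ∈ Submodule.span ℝ (Set.range v) := by
  rcases (by omega : k = 1 ∨ k = 2 ∨ 3 ≤ k) with rfl | rfl | h
  · refine ⟨fun i : Fin 3 => f * MvPolynomial.X i, ?_⟩
    rintro _ hc ⟨h, rfl⟩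
    rcases quot_hom hf h0 hc with rfl | ⟨b, hb, e⟩
    · simp
    obtain rfl : b = 1 := by omega
    obtain ⟨w, rfl⟩ := exists_lin hb
    rw [lin_eq, Finset.mul_sum]
    exact Submodule.sum_mem _ fun i _ => by
      rw [mul_smul_comm]
      exact Submodule.smul_mem _ _ (Submodule.subset_span ⟨i, rfl⟩)
  · refine ⟨fun _ : Fin 1 => f, ?_⟩
    rintro _ hc ⟨h, rfl⟩
    rcases quot_hom hf h0 hc with rfl | ⟨b, hb, e⟩
    · simp
    obtain rfl : b = 0 := by omega
    rw [MvPolynomial.totalDegree_eq_zero_iff_eq_C.1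
      (MvPolynomial.totalDegree_zero_iff_isHomogeneous _ |>.2 hb), mul_comm,
      ← MvPolynomial.smul_eq_C_mul]
    exact Submodule.smul_mem _ _ (Submodule.subset_span ⟨(0 : Fin 1), rfl⟩)
  · refine ⟨fun _ => 0, ?_⟩
    rintro _ hc ⟨h, rfl⟩
    rcases quot_hom hf h0 hc with rfl | ⟨b, hb, e⟩
    · simp
    omega

section
variable {E F : Type*} [AddCommGroup E] [Module ℝ E] [FiniteDimensional ℝ E] [AddCommGroup F]
  [Module ℝ F]

theorem exists_out (W D : Submodule ℝ E) (h : finrank ℝ D < finrank ℝ W) : ∃ x ∈ W, x ∉ D :=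
  SetLike.not_le_iff_exists.1 fun hle => absurd (Submodule.finrank_mono hle) (not_le.2 h)

theorem exists_two (G : E →ₗ[ℝ] F) {f : F} (hf : f ≠ 0) (W : Submodule ℝ E)
    (h : finrank ℝ ((Submodule.span ℝ {f}).comap G) + 2 ≤ finrank ℝ W) :
    ∃ x ∈ W, ∃ y ∈ W, LinearIndependent ℝ ![f, G x, G y] := by
  set D := (Submodule.span ℝ {f}).comap G
  obtain ⟨x, hx, hx'⟩ := exists_out W D (by omega)
  obtain ⟨y, hy, hy'⟩ := exists_out W (D ⊔ Submodule.span ℝ {x}) (by
    have h1 := Submodule.finrank_add_le_finrank_add_finrank D (Submodule.span ℝ {x})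
    have h2 : finrank ℝ (Submodule.span ℝ {x}) ≤ 1 := by
      simpa using finrank_span_le_card (R := ℝ) ({x} : Set E)
    omega)
  refine ⟨x, hx, y, hy, Fintype.linearIndependent_iff.2 fun c hc => ?_⟩
  simp only [Fin.sum_univ_three, Matrix.cons_val] at hc
  have h1 : c 1 • x + c 2 • y ∈ D := Submodule.mem_span_singleton.2 ⟨-c 0, by
    rw [map_add, map_smul, map_smul]; linear_combination (norm := module) -hc⟩
  have h2 : c 2 = 0 := by_contra fun h2 => hy' ((Submodule.smul_mem_iff _ h2).1 (by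
    rw [(by module : c 2 • y = (c 1 • x + c 2 • y) + (-c 1) • x)]
    exact Submodule.add_mem_sup h1 (Submodule.smul_mem _ _ (Submodule.mem_span_singleton_self x))))
  rw [h2, zero_smul, add_zero] at h1 hc
  have h3 : c 1 = 0 := by_contra fun h3 => hx' ((Submodule.smul_mem_iff _ h3).1 h1)
  rw [h3, zero_smul, add_zero] at hc
  have h4 := (smul_eq_zero.1 hc).resolve_right hf
  intro i
  fin_cases i <;> assumption

theorem finrank_ker_ge {ι : Type*} [Fintype ι] (L : E →ₗ[ℝ] (ι → ℝ)) :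
    finrank ℝ E ≤ finrank ℝ (LinearMap.ker L) + Fintype.card ι := by
  have h1 := L.finrank_range_add_finrank_ker
  have h2 := (LinearMap.range L).finrank_le
  rw [Module.finrank_fintype_fun_eq_card] at h2
  omega

end

end Pool.Agent.MP_3d209c_an.H45
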