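import Mathlib

/-! Forms dominated by the distance to a real hypersurface, and rigid plane curves. -/

namespace Pool.Agent.MP_3d209c_an.H45

open MvPolynomial

/-- The forms `c` of degree `j + 1` with `|c x| ≤ C ‖x‖ ^ j ‖x - y‖` for all `x ∈ U` and all real
zeros `y` of `F`. -/
def Tame {n : ℕ} (U : Set (Fin n → ℝ)) (F : MvPolynomial (Fin n) ℝ) (j : ℕ) :
    Set (MvPolynomial (Fin n) ℝ) :=
  {c | c.IsHomogeneous (j + 1) ∧ ∃ C : ℝ, ∀ x ∈ U, ∀ y, eval y F = 0 →
    |eval x c| ≤ C * ‖x‖ ^ j * ‖x - y‖}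

/-- For some `e ∈ U` the derivative of `F` in direction `e` has no common real zero with `F`
other than the origin. -/
def Strict {n : ℕ} (U : Set (Fin n → ℝ)) (F : MvPolynomial (Fin n) ℝ) : Prop :=
  ∃ e ∈ U, ∀ x, x ≠ 0 → eval x F = 0 → ∑ i, e i * eval x (pderiv i F) ≠ 0

/-- The value of `F` at the complex point `a + i b`. -/
noncomputable def cx {n : ℕ} (a b : Fin n → ℝ) (F : MvPolynomial (Fin n) ℝ) : ℂ :=
  aeval (fun i => (a i : ℂ) + Complex.I * (b i : ℂ)) F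

/-- Modulo multiples of `F`, the tame cubics through any non-real point of the curve `F = 0` span
at most a line, and so do the tame forms of the degree of `F` if `F` is strict. -/
def Rigid (U : Set (Fin 3 → ℝ)) (F : MvPolynomial (Fin 3) ℝ) : Prop :=
  (∀ a b, LinearIndependent ℝ ![a, b] → cx a b F = 0 → ∀ c ∈ Tame U F 2, ∀ c' ∈ Tame U F 2,
    cx a b c = 0 → cx a b c' = 0 → ∃ s t : ℝ, (s ≠ 0 ∨ t ≠ 0) ∧ F ∣ s • c + t • c') ∧
  (Strict U F → ∀ j, F.IsHomogeneous (j + 1) → ∀ g ∈ Tame U F j, ∀ g' ∈ Tame U F j,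
    ¬LinearIndependent ℝ ![F, g, g'])

end Pool.Agent.MP_3d209c_an.H45
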