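import Pool.Agent.MP_3d209c_an.H45.Alg
import Pool.Agent.MP_3d209c_an.H45.Tame

/-! Tame perturbations of strictly hyperbolic forms stay hyperbolic. -/

namespace Pool.Agent.MP_3d209c_an.H45

open Filter Topology Pool.Agent.MP_3d209c_an.H71 Pool.Agent.MP_3d209c_an.H61

variable {n j : ℕ} {U : Set (Fin n → ℝ)} {f g h : MvPolynomial (Fin n) ℝ}

theorem divided (e : Fin n → ℝ) (f : MvPolynomial (Fin n) ℝ) : ∃ H : (Fin n → ℝ) × ℂ → ℂ,
    Continuous H ∧ (∀ (x : Fin n → ℝ) (z : ℂ), MvPolynomial.aeval (fun i => (x i : ℂ) + z * e i) f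
      = (MvPolynomial.eval x f : ℝ) + z * H (x, z)) ∧
    ∀ x, H (x, 0) = (∑ i, e i * MvPolynomial.eval x (MvPolynomial.pderiv i f) : ℝ) := by
  induction f using MvPolynomial.induction_on with
  | C a => exact ⟨0, continuous_const, by simp, by simp⟩
  | add p q hp hq =>
    obtain ⟨A, a1, a2, a3⟩ := hp
    obtain ⟨B, b1, b2, b3⟩ := hq
    exact ⟨A + B, a1.add b1, fun x z => by simp [a2, b2]; ring,
      fun x => by simp [a3, b3, mul_add, Finset.sum_add_distrib]⟩
  | mul_X p i hp =>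
    obtain ⟨A, a1, a2, a3⟩ := hp
    have := MvPolynomial.continuous_eval p
    refine ⟨fun y => A y * (y.1 i + y.2 * e i) + (MvPolynomial.eval y.1 p : ℝ) * e i, by fun_prop,
      fun x z => by simp [a2]; ring, fun x => ?_⟩
    simp [a3, mul_add, Finset.sum_add_distrib, Pi.single_apply, apply_ite, Finset.sum_mul]
    rw [add_comm, mul_comm]
    congr 1
    exact Finset.sum_congr rfl fun _ _ => by ring

theorem strict_low (hc : Convex ℝ U) (hk : IsCone U) (hf : f ∈ HV U) (hd : f.IsHomogeneous (j + 1))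
    {e : Fin n → ℝ} (he : e ∈ U) (hs : ∀ x, x ≠ 0 → MvPolynomial.eval x f = 0 →
      ∑ i, e i * MvPolynomial.eval x (MvPolynomial.pderiv i f) ≠ 0) :
    ∃ c : ℝ, 0 < c ∧ ∀ x ∈ U, ∃ l : ℝ, 0 < l ∧ MvPolynomial.eval (x - l • e) f = 0 ∧
      c * ‖x‖ ^ j * l ≤ |MvPolynomial.eval x f| := by
  obtain ⟨H, h1, h2, h3⟩ := divided e f
  let D : (Fin n → ℝ) → ℝ := fun x => ∑ i, e i * MvPolynomial.eval x (MvPolynomial.pderiv i f)
  have hD : ∀ (r : ℝ) x, D (r • x) = r ^ j * D x := fun r x => by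
    simp only [D, Finset.mul_sum]
    exact Finset.sum_congr rfl fun i _ => by
      rw [eval_scale (d := j) (by simpa using hd.pderiv (i := i))]; ring
  have hcont := fun p : MvPolynomial (Fin n) ℝ => MvPolynomial.continuous_eval p
  obtain ⟨m, hm, hm'⟩ := ((isCompact_sphere (0 : Fin n → ℝ) 1).inter_right
    (isClosed_eq (hcont f) (continuous_const (y := 0)))).exists_forall_le' (f := fun x => |D x|)
    (a := 0) (by fun_prop) fun x hx => abs_pos.2 (hs x (by
      rintro rfl; simpa using hx.1) hx.2)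
  have he0 := abs_pos.2 (hf.2 e he).1
  set μ := min m |MvPolynomial.eval e f|
  have hμ : 0 < μ := lt_min hm he0
  refine ⟨μ / (1 + ‖e‖) ^ j, by positivity, fun x hx => ?_⟩
  obtain ⟨ρ, hρ⟩ := factor_cx hd (hf.2 e he) x
  obtain ⟨i, -, hi⟩ := Finset.exists_min_image Finset.univ ρ Finset.univ_nonempty
  have e1 : ∀ t : ℝ, MvPolynomial.eval (x + t • e) f
      = MvPolynomial.eval e f * ((t + ρ i) * ∏ r, (t + ρ (i.succAbove r))) := fun t => by
    have := hρ t
    rw [(by ext; simp : (fun i => (x i : ℂ) + t * e i) = fun i => (((x + t • e) i : ℝ) : ℂ)),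
      aeval_ofReal, Fin.prod_univ_succAbove _ i] at this
    exact_mod_cast this
  have l0 : 0 < ρ i := not_le.1 fun h0 =>
    (hf.2 _ (add_mem_cone hc hk hx he (neg_nonneg.2 h0))).1 (by rw [e1]; simp)
  have y0 : MvPolynomial.eval (x - ρ i • e) f = 0 := by
    simpa [← sub_eq_add_neg] using e1 (-ρ i)
  have e2 : D (x - ρ i • e) = MvPolynomial.eval e f * ∏ r, (ρ (i.succAbove r) - ρ i) := by
    have : (fun z : ℂ => H (x - ρ i • e, z)) = fun z : ℂ => (MvPolynomial.eval e f : ℝ) *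
        ∏ r, (z + (ρ (i.succAbove r) - ρ i : ℝ)) :=
      Continuous.ext_on (dense_compl_singleton (0 : ℂ)) (by fun_prop) (by fun_prop) fun z hz => by
        have a1 := h2 (x - ρ i • e) z
        have a2 := hρ (z - ρ i)
        rw [Fin.prod_univ_succAbove _ i, sub_add_cancel] at a2
        rw [y0, (by ext; simp; ring : (fun r => (((x - ρ i • e) r : ℝ) : ℂ) + z * e r)
          = fun r => (x r : ℂ) + (z - ρ i) * e r), a2] at a1
        refine mul_left_cancel₀ hz ?_
        simp only [Complex.ofReal_zero, zero_add] at a1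
        rw [← a1, mul_left_comm]
        congr 2
        exact Finset.prod_congr rfl fun r _ => by push_cast; ring
    have := congrFun this 0
    simp only [h3, zero_add] at this
    exact_mod_cast this
  have hi' := fun r => hi (i.succAbove r) (Finset.mem_univ _)
  set Pr := ∏ r, ρ (i.succAbove r)
  have b1 : μ * ρ i ^ j ≤ |MvPolynomial.eval e f| * Pr :=
    mul_le_mul (min_le_right _ _) (by
      simpa using Finset.prod_le_prod (s := Finset.univ) (f := fun _ => ρ i) (fun _ _ => l0.le)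
        fun r _ => hi' r) (by positivity) he0.le
  have b2 : μ * ‖x - ρ i • e‖ ^ j ≤ |MvPolynomial.eval e f| * Pr := by
    by_cases hy : x - ρ i • e = 0
    · refine le_trans ?_ b1
      rw [hy, norm_zero]
      gcongr
    have hn := norm_pos_iff.2 hy
    have a1 := hm' (‖x - ρ i • e‖⁻¹ • (x - ρ i • e)) ⟨by simp [norm_smul, hn.ne'],
      by simp [eval_scale hd, y0]⟩
    simp only [hD, e2, abs_mul, abs_pow, abs_inv, abs_norm, inv_pow] at a1
    rw [le_inv_mul_iff₀ (by positivity), abs_of_nonneg (Finset.prod_nonneg fun r _ =>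
      sub_nonneg.2 (hi' r))] at a1
    refine le_trans ?_ (a1.trans (mul_le_mul_of_nonneg_left (Finset.prod_le_prod (fun r _ =>
      sub_nonneg.2 (hi' r)) fun r _ => by linarith) he0.le))
    rw [mul_comm]
    exact mul_le_mul_of_nonneg_left (min_le_left _ _) (by positivity)
  refine ⟨ρ i, l0, y0, ?_⟩
  have a0 := e1 0
  simp only [zero_smul, add_zero, zero_add] at a0
  have p0 : 0 ≤ Pr := Finset.prod_nonneg fun r _ => l0.le.trans (hi' r)
  rw [a0, abs_mul, abs_mul, abs_of_pos l0, abs_of_nonneg p0, mul_comm (ρ i), ← mul_assoc]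
  refine mul_le_mul_of_nonneg_right ?_ l0.le
  have a1 : ‖x‖ ≤ ‖x - ρ i • e‖ + ρ i * ‖e‖ := by
    simpa [norm_smul, abs_of_pos l0] using norm_add_le (x - ρ i • e) (ρ i • e)
  rw [div_mul_eq_mul_div, mul_div_assoc, ← div_pow]
  have n0 := norm_nonneg e
  rcases le_total (ρ i) ‖x - ρ i • e‖ with a2 | a2
  · refine le_trans ?_ b2
    gcongr
    rw [div_le_iff₀ (by positivity)]
    nlinarith
  · refine le_trans ?_ b1
    gcongr
    rw [div_le_iff₀ (by positivity)]
    nlinarith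

theorem strict_open (hc : Convex ℝ U) (hk : IsCone U) (hf : f ∈ HV U)
    (hd : f.IsHomogeneous (j + 1)) (hs : Strict U f) (hg : g ∈ Tame U f j) (hh : h ∈ Tame U f j) :
    ∀ᶠ p : ℝ × ℝ in 𝓝 0, f + (p.1 • g + p.2 • h) ∈ HV U := by
  obtain ⟨e, he, hs⟩ := hs
  obtain ⟨c, hc0, hc'⟩ := strict_low hc hk hf hd he hs
  obtain ⟨hg, A, hA⟩ := hg
  obtain ⟨hh, B, hB⟩ := hh
  obtain ⟨F, f1, f2, f3⟩ := divided e f
  obtain ⟨G, g1, g2, -⟩ := divided e g
  obtain ⟨H, h1, h2, -⟩ := divided e h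
  have c1 := MvPolynomial.continuous_eval f
  have c2 := MvPolynomial.continuous_eval g
  have c3 := MvPolynomial.continuous_eval h
  let Y : (ℝ × ℝ) × (Fin n → ℝ) × ℝ → ℂ := fun y => F (y.2.1, Complex.I * y.2.2)
    + y.1.1 * G (y.2.1, Complex.I * y.2.2) + y.1.2 * H (y.2.1, Complex.I * y.2.2)
  let Z : (ℝ × ℝ) × (Fin n → ℝ) × ℝ → ℂ := fun y => ((MvPolynomial.eval y.2.1 f + (y.1.1 *
    MvPolynomial.eval y.2.1 g + y.1.2 * MvPolynomial.eval y.2.1 h) : ℝ) : ℂ) + Complex.I * y.2.2 * Y y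
  have t1 : ∀ᶠ p : ℝ × ℝ in 𝓝 0, ∀ y ∈ Metric.sphere (0 : (Fin n → ℝ) × ℝ) 1,
      0 < ‖Z (p, y)‖ + |(Y (p, y)).re| :=
    (isCompact_sphere _ _).eventually_forall_of_forall_eventually fun y hy =>
      ((by fun_prop : Continuous fun y => ‖Z y‖ + |(Y y).re|).continuousAt
        (x := (0, y))).eventually_const_lt (by
        refine lt_of_le_of_ne (by positivity) fun h0 => ?_
        obtain ⟨a1, a2⟩ := (add_eq_zero_iff_of_nonneg (norm_nonneg _) (abs_nonneg _)).1 h0.symm
        simp only [Z, Y, Prod.fst_zero, Prod.snd_zero, zero_mul, add_zero, Complex.ofReal_zero,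
          norm_eq_zero, abs_eq_zero] at a1 a2
        have a3 : y.2 = 0 := by simpa using (hf.2 e he).2 y.1 _ ((f2 _ _).trans a1)
        simp only [a3, Complex.ofReal_zero, mul_zero, zero_mul, add_zero, f3, Complex.ofReal_re,
          Complex.ofReal_eq_zero] at a1 a2
        exact hs y.1 (fun h1 => by simp [Prod.norm_def, h1, a3] at hy) a1 a2)
  have t2 : ∀ᶠ p : ℝ × ℝ in 𝓝 0, (|p.1| * |A| + |p.2| * |B|) * ‖e‖ < c :=
    ((by fun_prop : Continuous fun p : ℝ × ℝ => (|p.1| * |A| + |p.2| * |B|) * ‖e‖).continuousAt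
      (x := 0)).eventually_lt_const (by simpa using hc0)
  filter_upwards [t1, t2] with p t1 t2
  have hd' : (f + (p.1 • g + p.2 • h)).IsHomogeneous (j + 1) := hd.add (.add
    ((MvPolynomial.homogeneousSubmodule _ ℝ _).smul_mem _ hg)
    ((MvPolynomial.homogeneousSubmodule _ ℝ _).smul_mem _ hh))
  have n1 : ∀ x ∈ U, MvPolynomial.eval x (f + (p.1 • g + p.2 • h)) ≠ 0 := fun x hx h0 => by
    obtain ⟨l, l0, l1, l2⟩ := hc' x hx
    have a1 := hA x hx _ l1
    have a2 := hB x hx _ l1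
    simp only [sub_sub_cancel, norm_smul, Real.norm_eq_abs, abs_of_pos l0] at a1 a2
    have x0 : 0 < ‖x‖ ^ j * l := mul_pos (pow_pos (norm_pos_iff.2 (by
      rintro rfl
      exact (hf.2 0 hx).1 (by simpa using eval_scale hd 0 0))) _) l0
    simp only [map_add, MvPolynomial.smul_eval] at h0
    have a3 := abs_add_le (p.1 * MvPolynomial.eval x g) (p.2 * MvPolynomial.eval x h)
    rw [← abs_neg, ← eq_neg_of_add_eq_zero_left h0, abs_mul, abs_mul] at a3
    have w0 : 0 ≤ ‖x‖ ^ j * l * ‖e‖ := by positivity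
    nlinarith [mul_le_mul_of_nonneg_left a1 (abs_nonneg p.1), mul_le_mul_of_nonneg_left a2
      (abs_nonneg p.2), mul_lt_mul_of_pos_right t2 x0,
      mul_le_mul_of_nonneg_left (mul_le_mul_of_nonneg_right (le_abs_self A) w0) (abs_nonneg p.1),
      mul_le_mul_of_nonneg_left (mul_le_mul_of_nonneg_right (le_abs_self B) w0) (abs_nonneg p.2)]
  have n2 : Hyp e (f + (p.1 • g + p.2 • h)) := ⟨n1 e he, fun α z hz => by_contra fun hz' => by
    let y : (Fin n → ℝ) × ℝ := (α + z.re • e, z.im)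
    have y0 : 0 < ‖y‖ := norm_pos_iff.2 fun h => hz' (congrArg Prod.snd h)
    have a1 := t1 (‖y‖⁻¹ • y) (by simp [norm_smul, y0.ne'])
    have a2 : Z (p, ‖y‖⁻¹ • y) = 0 := by
      have := aeval_scale hd' ((‖y‖⁻¹ : ℝ) : ℂ) fun i => (α i : ℂ) + z * e i
      rw [hz, mul_zero, (by
        ext i
        generalize ‖y‖⁻¹ = r
        simp [y]
        linear_combination (-(r : ℂ) * e i) * Complex.re_add_im z : (fun i => ((‖y‖⁻¹ : ℝ) : ℂ) * ((α i : ℂ) + z * e i)) = fun i =>
          (((‖y‖⁻¹ • y).1 i : ℝ) : ℂ) + Complex.I * (‖y‖⁻¹ • y).2 * e i)] at this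
      rw [← this]
      simp only [Z, Y, map_add, map_smul, f2, g2, h2, Complex.real_smul]
      push_cast
      ring
    have a3 := congrArg Complex.im a2
    simp only [Z, Complex.add_im, Complex.ofReal_im, Complex.mul_im, Complex.mul_re, Complex.I_re,
      Complex.I_im, Complex.ofReal_re, Complex.zero_im, zero_mul, one_mul, zero_add, mul_zero,
      sub_zero, Prod.smul_snd, smul_eq_mul] at a3
    rw [a2, (mul_eq_zero.1 a3).resolve_left (mul_ne_zero (inv_ne_zero y0.ne') hz')] at a1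
    simp at a1⟩
  exact ⟨⟨_, hd'⟩, fun x hx => hyp_Gc hd' n2 (subset_Gc hd' n2 hc.isPreconnected he n1 hx)⟩

end Pool.Agent.MP_3d209c_an.H45
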