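import Pool.Agent.MP_3d209c_an.H45.Small
import Pool.Agent.MP_3d209c_an.H45.Strict

/-! Two independent tame cubics through a non-real point of the curve give a flat disc. -/

namespace Pool.Agent.MP_3d209c_an.H45

open Filter Topology Matrix Pool.Agent.MP_3d209c_an.H71 Pool.Agent.MP_3d209c_an.H61
open scoped ComplexOrder

variable {e a b : Fin 3 → ℝ} {f c c' : MvPolynomial (Fin 3) ℝ} {k : ℕ} {U : Set (Fin 3 → ℝ)}

theorem exists_pen_at (hd : f.IsHomogeneous (k + 1)) (hf : Hyp e f)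
    (hab : LinearIndependent ℝ ![a, b]) (h0 : cx a b f = 0) :
    ∃ P : Pen e f k, P.Z a = ![0, 1, 0] ∧ P.Z b = ![0, 0, 1] := by
  unfold cx at h0
  have h1 : LinearIndependent ℝ ![e, a, b] := by
    refine linearIndependent_finCons.2 ⟨hab, fun h => ?_⟩
    obtain ⟨s, hs⟩ := (Submodule.mem_span_range_iff_exists_fun ℝ).1 h
    simp only [Fin.sum_univ_two, Matrix.cons_val] at hs
    have := aeval_scale hd ((s 1 : ℂ) + Complex.I * s 0) fun i => (a i : ℂ) + Complex.I * b i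
    rw [h0, mul_zero] at this
    simpa using hf.2 (s 1 • a - s 0 • b) Complex.I (by
      rw [← this, ← hs]
      congr 2
      ext i
      simp
      linear_combination (-(s 0 : ℂ) * b i) * Complex.I_mul_I)
  obtain ⟨B, hB'⟩ : ∃ B : Module.Basis (Fin 3) ℝ (Fin 3 → ℝ), ⇑B = ![e, a, b] :=
    ⟨basisOfLinearIndependentOfCardEqFinrank' ![e, a, b] h1 (by simp),
      coe_basisOfLinearIndependentOfCardEqFinrank' _ _ _⟩
  have hB : ∀ x, x = B.repr x 0 • e + (B.repr x 1 • a + B.repr x 2 • b) := fun x => by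
    have := (B.sum_repr x).symm
    simp only [Fin.sum_univ_three, hB', Matrix.cons_val] at this
    exact this.trans (by abel)
  have hBe : ∀ i, B.equivFun (![e, a, b] i) = Pi.single i 1 := fun i => by
    rw [← hB']; ext j; simp [Pi.single_apply, eq_comm]
  obtain ⟨k', A1, A2, m1, m2, h⟩ := rep3 hd hf a b
  obtain rfl : k' = k + 1 := by
    have h3 := h 2 0 0
    have h4 := eval_scale hd 2 e
    simp only [zero_smul, add_zero, Complex.ofReal_zero, det_smul, det_one, Fintype.card_fin, h4,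
      mul_one] at h3
    norm_cast at h3
    rw [mul_comm] at h3
    exact (Nat.pow_right_injective le_rfl (Nat.cast_injective (mul_left_cancel₀ hf.1 h3))).symm
  have h2 : ∀ z : ℂ, (A1 + z • A2).det
      = (A1.map Polynomial.C + (Polynomial.X : Polynomial ℂ) • A2.map Polynomial.C).det.eval z :=
    fun z => by
      rw [← Polynomial.coe_evalRingHom, RingHom.map_det]
      congr 1
      ext i j
      simp [mul_comm z]
  have h3 : pl (fun i => (a i : ℂ)) (fun i => (b i : ℂ)) f = Polynomial.C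
      ((MvPolynomial.eval e f : ℝ) : ℂ) * (A1.map Polynomial.C + (Polynomial.X : Polynomial ℂ) •
        A2.map Polynomial.C).det := eq_of_cofinite (.of_forall fun s => by
    have := h 0 1 s
    simp only [zero_smul, one_smul, zero_add, Complex.ofReal_zero, Complex.ofReal_one] at this
    rw [eval_pl, Polynomial.eval_mul, Polynomial.eval_C, ← h2, ← this, ← aeval_ofReal]
    congr 2
    ext i
    simp)
  have h4 := congrArg (Polynomial.eval Complex.I) h3
  rw [eval_pl, h0, Polynomial.eval_mul, Polynomial.eval_C,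
    ← h2] at h4
  obtain ⟨v, hv0, hv⟩ := exists_mulVec_eq_zero_iff.2
    ((mul_eq_zero.1 h4.symm).resolve_left (Complex.ofReal_ne_zero.2 hf.1))
  rw [add_mulVec, smul_mulVec] at hv
  let c : Fin 3 → (Fin 3 → ℝ) →ₗ[ℝ] ℝ := fun i => B.coord i
  let M := (c 0).smulRight (1 : Matrix (Fin (k + 1)) (Fin (k + 1)) ℂ) + (c 1).smulRight A1
    + (c 2).smulRight A2
  have hM : ∀ x, M x = (B.repr x 0 : ℂ) • (1 : Matrix _ _ ℂ) + (B.repr x 1 : ℂ) • A1
      + (B.repr x 2 : ℂ) • A2 := fun x => by simp [M, c]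
  have hz : ∀ i : Fin 3, (Pi.single i 1 : Fin 3 → ℝ) = ![![1, 0, 0], ![0, 1, 0], ![0, 0, 1]] i :=
    fun i => by ext j; fin_cases i <;> fin_cases j <;> simp
  refine ⟨⟨M, fun x => ?_, ?_, fun x => ?_, B.equivFun.toLinearMap, B.equivFun.injective,
    (hBe 0).trans (hz 0), v, A2 *ᵥ v, hv0, fun x => ?_⟩, (hBe 1).trans (hz 1), (hBe 2).trans (hz 2)⟩
  · simp [hM, IsHermitian, m1.eq, m2.eq]
  · have := fun i => congrFun (hBe 0) i
    simp only [Matrix.cons_val, Module.Basis.equivFun_apply] at this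
    simp [hM, this]
  · rw [hM, ← h, ← hB]
  · rw [hM, add_mulVec, add_mulVec, smul_mulVec, smul_mulVec, smul_mulVec, one_mulVec,
      eq_neg_of_add_eq_zero_left hv]
    simp only [LinearEquiv.coe_coe, Module.Basis.equivFun_apply]
    module

theorem hom_succ {n j : ℕ} {g : MvPolynomial (Fin n) ℝ} (hg : g.IsHomogeneous (j + 1)) :
    ∃ h : Fin n → MvPolynomial (Fin n) ℝ, (∀ i, (h i).IsHomogeneous j) ∧
      g = ∑ i, MvPolynomial.X i * h i := by
  refine ⟨fun i => ((j + 1 : ℕ) : ℝ)⁻¹ • MvPolynomial.pderiv i g, fun i =>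
    (MvPolynomial.homogeneousSubmodule _ ℝ _).smul_mem _ (by simpa using hg.pderiv (i := i)), ?_⟩
  simp only [mul_smul_comm, ← Finset.smul_sum, hg.sum_X_mul_pderiv]
  rw [← Nat.cast_smul_eq_nsmul ℝ, inv_smul_smul₀ (by positivity)]

theorem cub_surj (hc : c.IsHomogeneous 3) (h0 : cx ![0, 1, 0] ![0, 0, 1] c = 0) :
    ∃ θ, ∀ z, MvPolynomial.eval z c = cub θ z := by
  obtain ⟨g, hg, rfl⟩ := hom_succ hc
  choose h hh e1 using fun i => hom_succ (hg i)
  choose w hw using fun i j => exists_lin (hh i j)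
  simp only [e1, hw, lin, cx] at h0 ⊢
  have h1 := congrArg Complex.re h0
  have h2 := congrArg Complex.im h0
  simp [Fin.sum_univ_three] at h1 h2
  refine ⟨![w 1 1 1, w 2 2 2, w 0 0 0, w 0 0 1 + w 0 1 0 + w 1 0 0, w 0 0 2 + w 0 2 0 + w 2 0 0,
    w 0 1 1 + w 1 0 1 + w 1 1 0, w 0 1 2 + w 0 2 1 + w 1 0 2 + w 1 2 0 + w 2 0 1 + w 2 1 0,
    w 0 2 2 + w 2 0 2 + w 2 2 0], fun z => ?_⟩
  simp [Fin.sum_univ_three, cub]
  linear_combination (-z 1 * z 2 ^ 2) * h1 + (z 1 ^ 2 * z 2) * h2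

theorem Pen.cub_at (P : Pen e f k) (ha : P.Z a = ![0, 1, 0]) (hb : P.Z b = ![0, 0, 1])
    (hc : c.IsHomogeneous 3) (h0 : cx a b c = 0) :
    ∃ θ, ∀ x, MvPolynomial.eval x c = cub θ (P.Z x) := by
  obtain ⟨θ, hθ⟩ := cub_surj (c := MvPolynomial.aeval (fun i => lin ![e i, a i, b i]) c)
    (by simpa using hc.aeval _ fun i => lin_homogeneous _) (by
      rw [← h0, cx, cx, MvPolynomial.comp_aeval_apply]
      simp [aeval_lin])
  refine ⟨θ, fun x => ?_⟩
  have : x = P.Z x 0 • e + P.Z x 1 • a + P.Z x 2 • b := P.inj (by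
    ext i
    fin_cases i <;> simp [P.Ze, ha, hb])
  rw [← hθ, ← MvPolynomial.coe_aeval_eq_eval, ← MvPolynomial.coe_aeval_eq_eval]
  simp only [RingHom.coe_coe, MvPolynomial.comp_aeval_apply]
  congr 2
  ext i
  conv_lhs => rw [this]
  simp [eval_lin, Fin.sum_univ_three, dotProduct, mul_comm]

theorem flat_tame (hc : Convex ℝ U) (hk : IsCone U) (hf : f ∈ HV U) (hi : Irreducible f)
    (hd : f.IsHomogeneous (k + 1)) (hab : LinearIndependent ℝ ![a, b]) (h0 : cx a b f = 0)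
    (t1 : c ∈ Tame U f 2) (t2 : c' ∈ Tame U f 2) (z1 : cx a b c = 0) (z2 : cx a b c' = 0)
    (h : ∀ s t : ℝ, f ∣ s • c + t • c' → s = 0 ∧ t = 0) : Flat U f := by
  obtain ⟨e, he⟩ := hk.1
  obtain ⟨P, ha, hb⟩ := exists_pen_at hd (hf.2 e he) hab h0
  obtain ⟨G, Cb, N, η, K, S, a1, a2, a3, a4, a5, a6, a7, a8, a9⟩ := P.family (hf.2 e he).1
  obtain ⟨θ1, h1⟩ := P.cub_at ha hb t1.1 z1
  obtain ⟨θ2, h2⟩ := P.cub_at ha hb t2.1 z2
  have e1 : ∀ s t : ℝ, Cb (s • θ1 + t • θ2) = s • c + t • c' := fun s t => by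
    rw [map_add, map_smul, map_smul, MvPolynomial.funext (p := Cb θ1) (q := c) fun x => by
      rw [a3, h1], MvPolynomial.funext (p := Cb θ2) (q := c') fun x => by rw [a3, h2]]
  refine ⟨_, G θ1, G θ2, hd, a1 _, a1 _, Fintype.linearIndependent_iff.2 fun s hs => ?_, ?_⟩
  · simp only [Fin.sum_univ_three, Matrix.cons_val] at hs
    have b1 : f ∣ G (s 1 • θ1 + s 2 • θ2) := by
      rw [add_assoc] at hs
      rw [map_add, map_smul, map_smul, ← neg_eq_of_add_eq_zero_right hs]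
      exact (dvd_smul_of_dvd _ dvd_rfl).neg_right
    have b2 : f ∣ Cb (s 1 • θ1 + s 2 • θ2) * N := by
      simpa only [sub_sub_cancel] using dvd_sub (b1.mul_left η) (a7 (s 1 • θ1 + s 2 • θ2))
    obtain ⟨b3, b4⟩ := h _ _ (e1 _ _ ▸ (hi.prime.dvd_or_dvd b2).resolve_right (by
      rintro ⟨g, rfl⟩
      rcases quot_hom hd hi.ne_zero a5 with rfl | ⟨j, -, hj⟩
      · simp at a4
      · omega))
    simp only [b3, b4, zero_smul, add_zero] at hs
    have b0 := (smul_eq_zero.1 hs).resolve_right hi.ne_zero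
    intro i
    fin_cases i <;> assumption
  obtain ⟨A, hA⟩ := t1.2
  obtain ⟨B, hB⟩ := t2.2
  obtain ⟨D, -, hD⟩ := P.Z.exists_antilipschitzWith (LinearMap.ker_eq_bot.2 P.inj)
  have hcont : Continuous fun p : ℝ × ℝ => K * ‖p.1 • θ1 + p.2 • θ2‖ + (90 * ‖p.1 • θ1 + p.2 • θ2‖
    + (|p.1| * |A| + |p.2| * |B|) * (D : ℝ) ^ 2 * ‖e‖) * S := by fun_prop
  filter_upwards [(hcont.continuousAt (x := 0)).eventually_lt_const (show _ < (1 : ℝ) by simp)]
    with p hp
  rw [← map_smul, ← map_smul, ← map_add]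
  set θ := p.1 • θ1 + p.2 • θ2
  obtain ⟨κ, b1, b2⟩ := a9 θ
  refine P.small hc hk he hf hd (a1 θ) (R := fun x => cub θ (P.Z x) / eta (P.Z x)) (L := 90 * ‖θ‖)
    (C := (|p.1| * |A| + |p.2| * |B|) * (D : ℝ) ^ 2 * ‖e‖) (by positivity) (by positivity) a8
    (fun x s t => (lip_cub θ _ _).trans_eq ?_) (fun x hx l hl => ?_) b2 (by linarith)
  · rw [← map_sub, (by module : x - s • e - (x - t • e) = (t - s) • e), map_smul, P.Ze, norm_smul,
      Real.norm_eq_abs, abs_sub_comm, (by simp [Pi.norm_def, Fin.univ_succ] :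
        ‖(![1, 0, 0] : Fin 3 → ℝ)‖ = 1), mul_one]
  obtain ⟨lam, -, -, -, c1, -⟩ := b2 x
  obtain ⟨i, -, hi'⟩ := Finset.exists_min_image Finset.univ lam Finset.univ_nonempty
  have l0 : 0 < lam i := not_le.1 fun h0 =>
    (hf.2 _ (add_mem_cone hc hk hx he (neg_nonneg.2 h0))).1 (by
      rw [c1, Finset.prod_eq_zero (Finset.mem_univ i) (neg_add_cancel _), mul_zero])
  have l1 : lam i ≤ l := hl _ (P.psd fun t ht => by
    rw [(by module : x - lam i • e + t • e = x + (t - lam i) • e), c1]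
    exact mul_ne_zero (hf.2 e he).1 (Finset.prod_ne_zero_iff.2 fun j hj => by
      linarith [hi' j hj]))
  have y0 : MvPolynomial.eval (x - lam i • e) f = 0 := by
    rw [sub_eq_add_neg, ← neg_smul, c1, Finset.prod_eq_zero (Finset.mem_univ i) (neg_add_cancel _),
      mul_zero]
  have d1 := hA x hx _ y0
  have d2 := hB x hx _ y0
  simp only [sub_sub_cancel, norm_smul, Real.norm_eq_abs, abs_of_pos l0] at d1 d2
  have x0 : P.Z x ≠ 0 := fun h => (hf.2 x hx).1 (by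
    obtain rfl : x = 0 := P.inj (by simpa using h)
    simpa using eval_scale hd 0 0)
  have d3 : ‖P.Z x‖ ≤ √(eta (P.Z x)) := (pi_norm_le_iff_of_nonneg (Real.sqrt_nonneg _)).2 fun j =>
    Real.abs_le_sqrt (by
      unfold eta
      fin_cases j <;> simp <;>
        nlinarith [sq_nonneg (P.Z x 0), sq_nonneg (P.Z x 1), sq_nonneg (P.Z x 2)])
  have d4 : ‖x‖ ^ 2 ≤ (D : ℝ) ^ 2 * eta (P.Z x) := by
    rw [← Real.sq_sqrt (eta_pos x0).le, ← mul_pow]
    exact pow_le_pow_left₀ (norm_nonneg _) ((ZeroHomClass.bound_of_antilipschitz _ hD x).trans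
      (by gcongr)) 2
  have w : ‖x‖ ^ 2 * (lam i * ‖e‖) ≤ (D : ℝ) ^ 2 * eta (P.Z x) * (l * ‖e‖) := by
    have := eta_pos x0
    gcongr
  have w0 : 0 ≤ ‖x‖ ^ 2 * (lam i * ‖e‖) := by positivity
  rw [abs_div, abs_of_pos (eta_pos x0), div_le_iff₀ (eta_pos x0), ← a3, e1, map_add,
    MvPolynomial.smul_eval, MvPolynomial.smul_eval]
  refine (abs_add_le _ _).trans ?_
  rw [abs_mul, abs_mul]
  have d5 : ∀ {y A : ℝ}, y ≤ A * ‖x‖ ^ 2 * (lam i * ‖e‖) →
      y ≤ |A| * ((D : ℝ) ^ 2 * eta (P.Z x) * (l * ‖e‖)) := fun {y A} hy =>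
    hy.trans (by rw [mul_assoc]; exact mul_le_mul (le_abs_self A) w w0 (abs_nonneg A))
  nlinarith [mul_le_mul_of_nonneg_left (d5 d1) (abs_nonneg p.1),
    mul_le_mul_of_nonneg_left (d5 d2) (abs_nonneg p.2)]

theorem rigid_of_not_flat (hc : Convex ℝ U) (hk : IsCone U) (hf : f ∈ HV U) (hi : Irreducible f)
    (hd : f.IsHomogeneous (k + 1)) (h : ¬Flat U f) : Rigid U f := by
  refine ⟨fun a b hab h0 c t1 c' t2 z1 z2 => by_contra fun h1 => h (flat_tame hc hk hf hi hd hab h0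
    t1 t2 z1 z2 fun s t hst => ?_), fun hs j hj g t1 g' t2 h1 =>
      h ⟨_, g, g', hj, t1.1, t2.1, h1, strict_open hc hk hf hj hs t1 t2⟩⟩
  by_contra h2
  exact h1 ⟨s, t, not_and_or.1 h2, hst⟩

end Pool.Agent.MP_3d209c_an.H45
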