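import Pool.Agent.MP_3d209c_an.H45.Line

/-! The eight-dimensional family of flat directions indexed by the real cubics through a conjugate
pair of points of the curve. -/

namespace Pool.Agent.MP_3d209c_an.H45

open Filter Topology Matrix Pool.Agent.MP_3d209c_an.H71 Pool.Agent.MP_3d209c_an.H61
open scoped ComplexOrder

variable {e : Fin 3 → ℝ} {f : MvPolynomial (Fin 3) ℝ} {k : ℕ}

/-- The real cubics vanishing at `(0, 1, i)`. -/
def cub (θ : Fin 8 → ℝ) (z : Fin 3 → ℝ) : ℝ :=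
  (θ 0 * z 1 + θ 1 * z 2) * (z 1 ^ 2 + z 2 ^ 2) + θ 2 * z 0 * z 0 ^ 2
    + (θ 3 * z 0 + θ 5 * z 1 + θ 6 * z 2) * (z 0 * z 1) + (θ 4 * z 0 + θ 7 * z 2) * (z 0 * z 2)

theorem Rels.res {z : Fin 3 → ℝ} {σ : Fin 4 → ℝ} (h : Rels z σ) (θ : Fin 8 → ℝ) :
    (θ 0 * z 1 + θ 1 * z 2) * σ 0 + θ 2 * z 0 * σ 1 + (θ 3 * z 0 + θ 5 * z 1 + θ 6 * z 2) * σ 2
      + (θ 4 * z 0 + θ 7 * z 2) * σ 3 = (σ 0 + σ 1) * (cub θ z / eta z) := by
  by_cases hz : z = 0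
  · simp [hz, cub]
  have := (eta_pos hz).ne'
  obtain ⟨r1, r2, r3, r4⟩ := h
  rw [← mul_div_assoc, eq_div_iff this]
  unfold cub eta
  linear_combination ((θ 0 * z 1 + θ 1 * z 2) - θ 2 * z 0) * (z 0 * r1 + z 1 * r3 + z 2 * r4)
    + (θ 3 * z 0 + θ 5 * z 1 + θ 6 * z 2) * (z 0 * r3 - z 1 * r1 - z 2 * r2)
    + (θ 4 * z 0 + θ 7 * z 2) * (z 0 * r4 - z 2 * r1 + z 1 * r2)

theorem lip_cub (θ : Fin 8 → ℝ) (z y : Fin 3 → ℝ) :
    |cub θ z / eta z - cub θ y / eta y| ≤ 90 * ‖θ‖ * ‖z - y‖ := by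
  have h : ∀ j a b c, |θ j * (z a * z b * z c / eta z - y a * y b * y c / eta y)|
      ≤ ‖θ‖ * (9 * ‖z - y‖) := fun j a b c => by
    rw [abs_mul]
    exact mul_le_mul (norm_le_pi_norm θ j) (lip_mono a b c z y) (abs_nonneg _) (norm_nonneg _)
  have a0 := abs_le.1 (h 0 1 1 1)
  have a1 := abs_le.1 (h 0 1 2 2)
  have a2 := abs_le.1 (h 1 2 1 1)
  have a3 := abs_le.1 (h 1 2 2 2)
  have a4 := abs_le.1 (h 2 0 0 0)
  have a5 := abs_le.1 (h 3 0 0 1)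
  have a6 := abs_le.1 (h 4 0 0 2)
  have a7 := abs_le.1 (h 5 0 1 1)
  have a8 := abs_le.1 (h 6 0 1 2)
  have a9 := abs_le.1 (h 7 0 2 2)
  simp only [cub, div_eq_mul_inv] at *
  exact abs_le.2 ⟨by linarith, by linarith⟩

theorem cub_inj {θ : Fin 8 → ℝ} (h : ∀ z, cub θ z = 0) : θ = 0 := by
  have a0 := h ![0, 1, 0]
  have a1 := h ![0, 0, 1]
  have a2 := h ![1, 0, 0]
  have a3 := h ![1, 1, 0]
  have a4 := h ![1, -1, 0]
  have a5 := h ![1, 0, 1]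
  have a6 := h ![1, 0, -1]
  have a7 := h ![1, 1, 1]
  simp [cub] at a0 a1 a2 a3 a4 a5 a6 a7
  ext i
  fin_cases i <;> simp <;> linarith

theorem eq_of_ne {n : ℕ} {f p q : MvPolynomial (Fin n) ℝ} (hf : f ≠ 0)
    (h : ∀ x, MvPolynomial.eval x f ≠ 0 → MvPolynomial.eval x p = MvPolynomial.eval x q) :
    p = q := mul_left_cancel₀ hf (MvPolynomial.funext fun x => by
  by_cases hx : MvPolynomial.eval x f = 0
  · simp [hx]
  · simp [h x hx])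

theorem Pen.family (P : Pen e f k) (he : MvPolynomial.eval e f ≠ 0) :
    ∃ (G Cb : (Fin 8 → ℝ) →ₗ[ℝ] MvPolynomial (Fin 3) ℝ) (N η : MvPolynomial (Fin 3) ℝ) (K S : ℝ),
      (∀ θ, (G θ).IsHomogeneous (k + 1)) ∧ (∀ θ, (Cb θ).IsHomogeneous 3) ∧
      (∀ θ x, MvPolynomial.eval x (Cb θ) = cub θ (P.Z x)) ∧ N ≠ 0 ∧ N.IsHomogeneous k ∧
      (∀ x, MvPolynomial.eval x η = eta (P.Z x)) ∧ (∀ θ, f ∣ η * G θ - Cb θ * N) ∧ 0 ≤ S ∧
      ∀ θ, ∃ κ : ℝ, |κ| ≤ K * ‖θ‖ ∧ ∀ α : Fin 3 → ℝ, ∃ lam ρ : Fin (k + 1) → ℝ,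
        (∀ i, 0 ≤ ρ i) ∧ ∑ i, ρ i = S ∧
        (∀ t : ℝ, MvPolynomial.eval (α + t • e) f = MvPolynomial.eval e f * ∏ i, (t + lam i)) ∧
        (∀ t : ℝ, (∀ i, t + lam i ≠ 0) → MvPolynomial.eval (α + t • e) (G θ)
          = MvPolynomial.eval (α + t • e) f * (κ + ∑ i, ρ i * (cub θ (P.Z (α - lam i • e))
            / eta (P.Z (α - lam i • e))) / (t + lam i))) ∧
        ∀ i τ, (P.M (α - τ • e)).PosSemidef → τ ≤ lam i := by
  obtain ⟨N, s, hN, hs, h⟩ := P.line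
  choose w hw using fun i : Fin 3 => exists_vec (LinearMap.proj i ∘ₗ P.Z)
  let ζ : Fin 3 → MvPolynomial (Fin 3) ℝ := fun i => lin (w i)
  have hζ : ∀ x i, MvPolynomial.eval x (ζ i) = P.Z x i := fun x i => by simp [ζ, eval_lin, hw]
  have h1 : ∀ i, (ζ i).IsHomogeneous 1 := fun i => lin_homogeneous _
  have hf : f ≠ 0 := fun h => he (by simp [h])
  have hZ : ∀ (α : Fin 3 → ℝ) (t l : ℝ), P.Z (α + t • e) 0 = P.Z (α - l • e) 0 + (t + l) ∧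
      P.Z (α + t • e) 1 = P.Z (α - l • e) 1 ∧ P.Z (α + t • e) 2 = P.Z (α - l • e) 2 := by
    intro α t l
    simp [P.Ze]
  have hr : (ζ 0 * N 0 = ζ 1 * N 2 + ζ 2 * N 3 + f * MvPolynomial.C (s 0) ∧ ζ 1 * N 3 = ζ 2 * N 2) ∧
      ζ 0 * N 2 = ζ 1 * N 1 + f * MvPolynomial.C (s 2) ∧
      ζ 0 * N 3 = ζ 2 * N 1 + f * MvPolynomial.C (s 3) := by
    refine ⟨⟨eq_of_ne hf fun x hx => ?_, eq_of_ne hf fun x hx => ?_⟩, eq_of_ne hf fun x hx => ?_,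
      eq_of_ne hf fun x hx => ?_⟩
    all_goals
      obtain ⟨lam, σ, -, a2, a3, a4, a5, -⟩ := h x
      have b0 : ∀ i, (0 : ℝ) + lam i ≠ 0 := fun i hi => hx (by
        simpa using (a4 0).trans (mul_eq_zero_of_right _ (Finset.prod_eq_zero (Finset.mem_univ i) hi)))
      have b1 := a5 0 b0
      have b2 := fun i => hZ x 0 (lam i)
      simp only [zero_smul, add_zero, zero_add] at b0 b1 b2
      simp only [map_mul, map_add, hζ, b1, MvPolynomial.eval_C, ← a2, Finset.mul_sum,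
        ← Finset.sum_add_distrib]
      refine Finset.sum_congr rfl fun i _ => ?_
      obtain ⟨r1, r2, r3, r4⟩ := a3 i
      have := b0 i
      rw [← (b2 i).2.1, ← (b2 i).2.2] at *
      field_simp
    · linear_combination r1 + σ i 0 * (b2 i).1
    · linear_combination r2
    · linear_combination r3 + σ i 2 * (b2 i).1
    · linear_combination r4 + σ i 3 * (b2 i).1
  obtain ⟨⟨r1, r2⟩, r3, r4⟩ := hr
  have hh : ∀ (i : Fin 3) (j : Fin 4), (ζ i * N j).IsHomogeneous (k + 1) := fun i j => by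
    simpa [add_comm] using (h1 i).mul (hN j)
  have h3 : ∀ a b c, (ζ a * (ζ b * ζ c)).IsHomogeneous 3 := fun a b c =>
    (h1 a).mul ((h1 b).mul (h1 c))
  refine ⟨Fintype.linearCombination ℝ ![ζ 1 * N 0, ζ 2 * N 0, ζ 0 * N 1, ζ 0 * N 2, ζ 0 * N 3,
      ζ 1 * N 2, ζ 2 * N 2, ζ 2 * N 3],
    Fintype.linearCombination ℝ ![ζ 1 * (ζ 1 * ζ 1) + ζ 1 * (ζ 2 * ζ 2),
      ζ 2 * (ζ 1 * ζ 1) + ζ 2 * (ζ 2 * ζ 2), ζ 0 * (ζ 0 * ζ 0), ζ 0 * (ζ 0 * ζ 1),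
      ζ 0 * (ζ 0 * ζ 2), ζ 0 * (ζ 1 * ζ 1), ζ 0 * (ζ 1 * ζ 2), ζ 0 * (ζ 2 * ζ 2)],
    N 0 + N 1, ζ 0 ^ 2 + ζ 1 ^ 2 + ζ 2 ^ 2, |s 1| + |s 2| + |s 3|, s 0 + s 1, fun θ => ?_,
    fun θ => ?_, fun θ x => ?_, fun h0 => ?_, (hN 0).add (hN 1), fun x => by simp [hζ, eta],
    fun θ => ?_, hs.le, fun θ => ⟨θ 2 * s 1 + θ 3 * s 2 + θ 4 * s 3, ?_, fun α => ?_⟩⟩
  · rw [Fintype.linearCombination_apply]
    refine MvPolynomial.IsHomogeneous.sum _ _ _ fun j _ =>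
      (MvPolynomial.homogeneousSubmodule _ ℝ _).smul_mem _ ?_
    fin_cases j <;> exact hh _ _
  · rw [Fintype.linearCombination_apply]
    refine MvPolynomial.IsHomogeneous.sum _ _ _ fun j _ =>
      (MvPolynomial.homogeneousSubmodule _ ℝ _).smul_mem _ ?_
    fin_cases j <;> first | exact h3 _ _ _ | exact (h3 _ _ _).add (h3 _ _ _)
  · simp [Fintype.linearCombination_apply, Fin.sum_univ_eight, hζ, cub]
    ring
  · obtain ⟨lam, σ, a1, a2, -, -, a5, a6⟩ := h 0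
    have b0 : ∀ i, 0 < 1 + lam i := fun i => by
      linarith [a6 i 0 (by simpa using PosSemidef.zero)]
    have b1 := congrArg (MvPolynomial.eval (0 + (1 : ℝ) • e)) h0
    rw [map_add, a5 1 (fun i => (b0 i).ne'), a5 1 (fun i => (b0 i).ne'), ← mul_add,
      ← Finset.sum_add_distrib, map_zero, zero_add, one_smul] at b1
    have b2 := (Finset.sum_eq_zero_iff_of_nonneg fun i _ => by
      rw [← add_div]; exact div_nonneg (a1 i) (b0 i).le).1 ((mul_eq_zero.1 b1).resolve_left he)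
    rw [← a2, ← a2, ← Finset.sum_add_distrib, Finset.sum_eq_zero fun i hi => by
      simpa [← add_div, (b0 i).ne'] using b2 i hi] at hs
    exact lt_irrefl _ hs
  · refine ⟨(MvPolynomial.C (θ 0) * ζ 1 + MvPolynomial.C (θ 1) * ζ 2 - MvPolynomial.C (θ 2) * ζ 0)
        * (ζ 0 * MvPolynomial.C (s 0) + ζ 1 * MvPolynomial.C (s 2) + ζ 2 * MvPolynomial.C (s 3))
      + (MvPolynomial.C (θ 3) * ζ 0 + MvPolynomial.C (θ 5) * ζ 1 + MvPolynomial.C (θ 6) * ζ 2)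
        * (ζ 0 * MvPolynomial.C (s 2) - ζ 1 * MvPolynomial.C (s 0))
      + (MvPolynomial.C (θ 4) * ζ 0 + MvPolynomial.C (θ 7) * ζ 2)
        * (ζ 0 * MvPolynomial.C (s 3) - ζ 2 * MvPolynomial.C (s 0)), ?_⟩
    simp only [Fintype.linearCombination_apply, Fin.sum_univ_eight, Matrix.cons_val,
      MvPolynomial.smul_eq_C_mul]
    linear_combination (MvPolynomial.C (θ 0) * ζ 1 + MvPolynomial.C (θ 1) * ζ 2
        - MvPolynomial.C (θ 2) * ζ 0) * (ζ 0 * r1 + ζ 1 * r3 + ζ 2 * r4)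
      + (MvPolynomial.C (θ 3) * ζ 0 + MvPolynomial.C (θ 5) * ζ 1 + MvPolynomial.C (θ 6) * ζ 2)
        * (ζ 0 * r3 - ζ 1 * r1 - ζ 2 * r2)
      + (MvPolynomial.C (θ 4) * ζ 0 + MvPolynomial.C (θ 7) * ζ 2) * (ζ 0 * r4 - ζ 2 * r1 + ζ 1 * r2)
  · have b : ∀ i j, |θ i * s j| ≤ |s j| * ‖θ‖ := fun i j => by
      rw [abs_mul, mul_comm]
      exact mul_le_mul_of_nonneg_left (norm_le_pi_norm θ i) (abs_nonneg _)
    have b1 := abs_le.1 (b 2 1)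
    have b2 := abs_le.1 (b 3 2)
    have b3 := abs_le.1 (b 4 3)
    exact abs_le.2 ⟨by linarith, by linarith⟩
  · obtain ⟨lam, σ, a1, a2, a3, a4, a5, a6⟩ := h α
    refine ⟨lam, fun i => σ i 0 + σ i 1, a1, by rw [Finset.sum_add_distrib, a2, a2], a4,
      fun t ht => ?_, a6⟩
    simp only [Fintype.linearCombination_apply, Fin.sum_univ_eight, Matrix.cons_val,
      map_add (MvPolynomial.eval _), MvPolynomial.smul_eval, map_mul, hζ, a5 t ht, ← a2,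
      Finset.mul_sum, ← Finset.sum_add_distrib]
    refine Finset.sum_congr rfl fun i _ => ?_
    obtain ⟨b0, b1, b2⟩ := hZ α t (lam i)
    have := ht i
    rw [← (a3 i).res, b0, b1, b2]
    field_simp
    ring

end Pool.Agent.MP_3d209c_an.H45
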