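import Pool.Agent.MP_3d209c_an.H71.Defs

/-! Cones modelled on a three-dimensional cone. -/

namespace Pool.Agent.MP_3d209c_an.H45

open Pool.Agent.MP_3d209c_an.H71

/-- The nonnegative combinations of the vectors `q j`. -/
def cone {m : ℕ} (q : Fin m → Fin 3 → ℝ) : Set (Fin 3 → ℝ) :=
  {x | ∃ s : Fin m → ℝ, (∀ j, 0 ≤ s j) ∧ x = ∑ j, s j • q j}

/-- The indices `j` with `f (q j) = 0`. -/
def zeros {m : ℕ} (q : Fin m → Fin 3 → ℝ) (f : MvPolynomial (Fin 3) ℝ) : Set (Fin m) :=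
  {j | MvPolynomial.eval (q j) f = 0}

/-- The preimage of `U` under the three linear forms `w 0, w 1, w 2`. -/
def Cyl {n : ℕ} (U : Set (Fin 3 → ℝ)) (w : Fin 3 → Fin n → ℝ) : Set (Fin n → ℝ) :=
  {x | (fun i => w i ⬝ᵥ x) ∈ U}

/-- Substitution of the three linear forms `w 0, w 1, w 2` into a ternary polynomial. -/
noncomputable def pull {n : ℕ} (w : Fin 3 → Fin n → ℝ) (F : MvPolynomial (Fin 3) ℝ) :
    MvPolynomial (Fin n) ℝ :=
  MvPolynomial.aeval (fun i => lin (w i)) F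

/-- Every member `w` of `E` is an independent triple of forms with `V ⊆ Cyl U w`, and every open
convex cone containing `V` contains `Cyl U w` for a member `w` of `E`. -/
def Frames {n : ℕ} (V : Set (Fin n → ℝ)) (U : Set (Fin 3 → ℝ)) (E : Set (Fin 3 → Fin n → ℝ)) :
    Prop :=
  (∀ w ∈ E, LinearIndependent ℝ w ∧ V ⊆ Cyl U w) ∧
    ∀ W, IsCone W → IsOpen W → Convex ℝ W → V ⊆ W → ∃ w ∈ E, Cyl U w ⊆ W

end Pool.Agent.MP_3d209c_an.H45
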