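import Pool.Agent.MP_3d209c_an.H45.Alg
import Pool.Agent.MP_3d209c_an.H45.Defs
import Pool.Agent.MP_3d209c_an.H61.Tri

/-! From a three-dimensional model cone to the cones framed by it, and factorization of the
polynomials that are not centres of flat discs. -/

namespace Pool.Agent.MP_3d209c_an.H45

open Filter Topology Matrix Pool.Agent.MP_3d209c_an.H71 Pool.Agent.MP_3d209c_an.H61

variable {n : ℕ} {V : Set (Fin n → ℝ)} {U : Set (Fin 3 → ℝ)}

theorem subst_mem {k l : ℕ} {A : Set (Fin k → ℝ)} {B : Set (Fin l → ℝ)} {w : Fin k → Fin l → ℝ}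
    (h : ∀ x ∈ B, (fun i => w i ⬝ᵥ x) ∈ A) {F : MvPolynomial (Fin k) ℝ} (hF : F ∈ HV A) :
    MvPolynomial.aeval (fun i => lin (w i)) F ∈ HV B := by
  obtain ⟨d, hd⟩ := hF.1
  refine ⟨⟨_, hd.aeval _ fun i => lin_homogeneous _⟩, fun e he => ⟨fun h0 => (hF.2 _ (h e he)).1 ?_,
    fun α z hz => (hF.2 _ (h e he)).2 (fun i => w i ⬝ᵥ α) z ?_⟩⟩
  · rw [← MvPolynomial.coe_aeval_eq_eval] at h0 ⊢
    rw [← h0]
    simp only [RingHom.coe_coe, MvPolynomial.comp_aeval_apply]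
    simp [eval_lin]
  · rw [← hz, MvPolynomial.comp_aeval_apply]
    simp only [aeval_lin]

theorem eval_subst {k l : ℕ} (w : Fin k → Fin l → ℝ) (F : MvPolynomial (Fin k) ℝ) (x : Fin l → ℝ) :
    MvPolynomial.eval x (MvPolynomial.aeval (fun i => lin (w i)) F)
      = MvPolynomial.eval (fun i => w i ⬝ᵥ x) F := by
  rw [← MvPolynomial.coe_aeval_eq_eval, ← MvPolynomial.coe_aeval_eq_eval]
  simp only [RingHom.coe_coe, MvPolynomial.comp_aeval_apply]
  simp [eval_lin]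

theorem frames_red (hV : IsCone V) (hc : IsPreconnected V) (hU : IsOpen U) (hUc : Convex ℝ U)
    (hUk : IsCone U) {E : Set (Fin 3 → Fin n → ℝ)} (hE : Frames V U E)
    (T : MvPolynomial (Fin n) ℝ →ₗ[ℝ] MvPolynomial (Fin n) ℝ)
    (h : ∀ w ∈ E, ∀ F ∈ HV U, ¬Flat U F → T (pull w F) ∈ HV V ∪ {0}) :
    ∀ f ∈ HV V, T f ∈ HV V ∪ {0} := by
  intro f hf
  obtain ⟨e, he⟩ := hV.1
  obtain ⟨d, hd⟩ := hf.1
  have hy := hf.2 e he
  have hsub := subset_Gc hd hy hc he fun x hx => (hf.2 x hx).1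
  obtain ⟨w, hw, hW⟩ := hE.2 (Gc e f) ⟨⟨e, hsub he⟩, fun v hv r hr => by
    simpa using comb_Gc hd hy hv hv hr le_rfl⟩ isOpen_Gc (fun x hx y hy' a b ha hb hab => by
      rcases ha.eq_or_lt with rfl | ha
      · simpa [(by linarith : b = 1)] using hy'
      · exact comb_Gc hd hy hx hy' ha hb) hsub
  have hf' : f ∈ HV (Cyl U w) := ⟨hf.1, fun x hx => hyp_Gc hd hy (hW hx)⟩
  obtain ⟨a, ha⟩ := exists_dual (hE.1 w hw).1
  have h1 : ∀ (y : Fin 3 → ℝ) i, (w i ⬝ᵥ fun r => (fun j => a j r) ⬝ᵥ y) = y i := fun y i => by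
    have : (fun r => (fun j => a j r) ⬝ᵥ y) = ∑ j, y j • a j := by
      ext r; simp [dotProduct, mul_comm]
    simp [this, dotProduct_sum, ha]
  have h2 : MvPolynomial.aeval (fun r => lin fun j => a j r) f ∈ HV U :=
    subst_mem (fun y hy => by simpa [Cyl, h1] using hy) hf'
  have h3 : f = pull w (MvPolynomial.aeval (fun r => lin fun j => a j r) f) :=
    MvPolynomial.funext fun x => by
      rw [pull, eval_subst, eval_subst, ← invariance hf' (e := e) (y := x - fun r =>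
        (fun j => a j r) ⬝ᵥ fun i => w i ⬝ᵥ x) (fun r => by
          simpa [Cyl, h1] using (hE.1 w hw).2 he) fun r => (fun j => a j r) ⬝ᵥ fun i => w i ⬝ᵥ x,
        add_sub_cancel]
  rw [h3]
  exact reduction hU hUc hUk (T ∘ₗ (MvPolynomial.aeval fun i => lin (w i)).toLinearMap)
    (h w hw) _ h2

theorem factor_of_not_flat (hne : V.Nonempty) {f : MvPolynomial (Fin n) ℝ} (hf : f ∈ HV V)
    (hF : ¬Flat V f) : ∃ (r : ℕ) (F : Fin r → MvPolynomial (Fin n) ℝ) (c : ℝ), f = c • ∏ i, F i ∧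
      (∀ i, F i ∈ HV V ∧ Irreducible (F i) ∧ ¬Flat V (F i)) ∧
      ∀ i j, i ≠ j → ¬Flat V (F i * F j) := by
  classical
  have h0 : f ≠ 0 := fun h0 => (hf.2 _ hne.some_mem).1 (by simp [h0])
  obtain ⟨r, F, c, e, hi⟩ : ∃ (r : ℕ) (F : Fin r → MvPolynomial (Fin n) ℝ) (c : ℝ),
      f = (∏ i, F i) * MvPolynomial.C c ∧ ∀ i, Irreducible (F i) := by
    clear hf hF
    induction f using WfDvdMonoid.induction_on_irreducible with
    | zero => exact absurd rfl h0
    | unit u hu =>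
      obtain ⟨c, -, rfl⟩ := MvPolynomial.isUnit_iff_eq_C_of_isReduced.1 hu
      exact ⟨0, ![], c, by simp, by simp⟩
    | mul a i ha hi ih =>
      obtain ⟨r, F, c, rfl, h⟩ := ih ha
      exact ⟨r + 1, Fin.cons i F, c, by rw [Fin.prod_univ_succ, mul_assoc]; rfl,
        fun j => Fin.cases hi h j⟩
  have key : ∀ g h, f = g * h → g ∈ HV V ∧ ¬Flat V g := by
    rintro g h rfl
    exact ⟨mem_of_mul hne hf, fun h1 => hF (h1.mul hne (mem_of_mul hne (mul_comm g h ▸ hf)))⟩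
  refine ⟨r, F, c, by rw [e, mul_comm, MvPolynomial.smul_eq_C_mul], fun i => ?_, fun i j hij => ?_⟩
  · have := key (F i) _ (by rw [e, ← Finset.mul_prod_erase _ _ (Finset.mem_univ i), mul_assoc])
    exact ⟨this.1, hi i, this.2⟩
  · exact (key _ _ (by
      rw [e, ← Finset.mul_prod_erase _ _ (Finset.mem_univ i), ← Finset.mul_prod_erase _ _
        (Finset.mem_erase.2 ⟨hij.symm, Finset.mem_univ j⟩), ← mul_assoc, mul_assoc])).2

theorem prod_memH {r : ℕ} {F : Fin r → MvPolynomial (Fin n) ℝ} (h : ∀ i, F i ∈ HV V) :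
    ∏ i, F i ∈ HV V :=
  Finset.prod_induction F (· ∈ HV V) (fun _ _ => mul_memH)
    (by simpa using prod_lin_mem (V := V) (ι := Fin 0) ![] (by simp)) fun i _ => h i

theorem deg_pos {f : MvPolynomial (Fin n) ℝ} {k : ℕ} (hi : Irreducible f) (hd : f.IsHomogeneous k) :
    k ≠ 0 := by
  rintro rfl
  refine hi.not_isUnit (MvPolynomial.isUnit_iff_eq_C_of_isReduced.2 ⟨f.coeff 0, ?_, ?_⟩)
  swap
  · exact MvPolynomial.totalDegree_eq_zero_iff_eq_C.1
      (MvPolynomial.totalDegree_zero_iff_isHomogeneous _ |>.2 hd)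
  refine Ne.isUnit fun h => hi.ne_zero ?_
  rw [MvPolynomial.totalDegree_eq_zero_iff_eq_C.1
    (MvPolynomial.totalDegree_zero_iff_isHomogeneous _ |>.2 hd), h, map_zero]

end Pool.Agent.MP_3d209c_an.H45
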