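import Pool.Agent.MP_3d209c_an.H45.Pen

/-! Partial fractions of the compressed resolvent along lines, and the two real estimates. -/

namespace Pool.Agent.MP_3d209c_an.H45

open Filter Topology Matrix Pool.Agent.MP_3d209c_an.H71 Pool.Agent.MP_3d209c_an.H61
open scoped ComplexOrder

variable {e : Fin 3 → ℝ} {f : MvPolynomial (Fin 3) ℝ} {k : ℕ}

theorem Pen.shift (P : Pen e f k) (α : Fin 3 → ℝ) (t : ℝ) :
    P.M (α + t • e) = P.M α + (t : ℂ) • (1 : Matrix _ _ ℂ) := by
  rw [map_add, map_smul, P.one]; rfl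

/-- The four linear relations between the residues. -/
def Rels (z : Fin 3 → ℝ) (σ : Fin 4 → ℝ) : Prop :=
  z 0 * σ 0 = z 1 * σ 2 + z 2 * σ 3 ∧ z 1 * σ 3 = z 2 * σ 2 ∧ z 0 * σ 2 = z 1 * σ 1 ∧
    z 0 * σ 3 = z 2 * σ 1

theorem Pen.line (P : Pen e f k) : ∃ (N : Fin 4 → MvPolynomial (Fin 3) ℝ) (s : Fin 4 → ℝ),
    (∀ j, (N j).IsHomogeneous k) ∧ 0 < s 0 + s 1 ∧ ∀ α : Fin 3 → ℝ,
    ∃ (lam : Fin (k + 1) → ℝ) (σ : Fin (k + 1) → Fin 4 → ℝ),
      (∀ i, 0 ≤ σ i 0 + σ i 1) ∧ (∀ j, ∑ i, σ i j = s j) ∧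
      (∀ i, Rels (P.Z (α - lam i • e)) (σ i)) ∧
      (∀ t : ℝ, MvPolynomial.eval (α + t • e) f = MvPolynomial.eval e f * ∏ i, (t + lam i)) ∧
      (∀ t : ℝ, (∀ i, t + lam i ≠ 0) → ∀ j, MvPolynomial.eval (α + t • e) (N j)
        = MvPolynomial.eval (α + t • e) f * ∑ i, σ i j / (t + lam i)) ∧
      ∀ i τ, (P.M (α - τ • e)).PosSemidef → τ ≤ lam i := by
  let p : Fin 4 → Fin (k + 1) → ℂ := ![P.a, P.b, P.a, P.a]
  let q : Fin 4 → Fin (k + 1) → ℂ := ![P.a, P.b, Complex.I • P.b, -P.b]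
  choose N hN hN' using fun j => adj_poly P.M (p j) (q j)
  refine ⟨fun j => MvPolynomial.C (MvPolynomial.eval e f) * N j, fun j => (star (p j) ⬝ᵥ q j).re,
    fun j => (hN j).C_mul _, ?_, fun α => ?_⟩
  · have h1 := (Complex.pos_iff.1 (dotProduct_star_self_pos_iff.2 P.ha)).1
    have h2 := (Complex.nonneg_iff.1 (dotProduct_star_self_nonneg P.b)).1
    exact add_pos_of_pos_of_nonneg h1 h2
  obtain ⟨lam, u, h1, h2, h3, h4⟩ := spec (P.herm α)
  have hs : ∀ (v : Fin (k + 1) → ℂ) i, star v ⬝ᵥ u i = star (star (u i) ⬝ᵥ v) := fun v i => by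
    rw [star_dotProduct]
  have h5 : ∀ (t : ℝ) i, P.M (α + t • e) *ᵥ u i = ((t + lam i : ℝ) : ℂ) • u i := fun t i => by
    rw [P.shift, add_mulVec, h1, smul_mulVec, one_mulVec]
    push_cast
    module
  have h6 : ∀ t : ℝ, (P.M (α + t • e)).det = ((∏ i, (t + lam i) : ℝ) : ℂ) := fun t => by
    rw [P.shift, h4]; simp
  have h7 : ∀ t : ℝ, MvPolynomial.eval (α + t • e) f
      = MvPolynomial.eval e f * ∏ i, (t + lam i) := fun t => by
    have := P.det (α + t • e)
    rw [h6] at this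
    exact_mod_cast this
  refine ⟨lam, fun i j => ((star (p j) ⬝ᵥ u i) * (star (u i) ⬝ᵥ q j)).re, fun i => ?_,
    fun j => by rw [← Complex.re_sum, h3], fun i => ?_, h7, fun t ht j => ?_, fun i τ hτ => ?_⟩
  · simp only [p, q, hs, Matrix.cons_val, Complex.mul_re, Complex.star_def, Complex.conj_re,
      Complex.conj_im]
    nlinarith [mul_self_nonneg (star (u i) ⬝ᵥ P.a).re, mul_self_nonneg (star (u i) ⬝ᵥ P.a).im,
      mul_self_nonneg (star (u i) ⬝ᵥ P.b).re, mul_self_nonneg (star (u i) ⬝ᵥ P.b).im]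
  · have := herm_dot (P.herm _) (h5 (-lam i) i) P.a
    rw [P.rel, neg_smul, ← sub_eq_add_neg, dotProduct_add, dotProduct_smul, dotProduct_smul] at this
    have E1 := congrArg Complex.re this
    have E2 := congrArg Complex.im this
    simp only [Rels, p, q, hs, Matrix.cons_val, dotProduct_smul, dotProduct_neg, smul_eq_mul]
    generalize star (u i) ⬝ᵥ P.a = β at *
    generalize star (u i) ⬝ᵥ P.b = γ at *
    generalize P.Z (α - lam i • e) = z at *
    simp at E1 E2 ⊢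
    exact ⟨by linear_combination β.re * E1 + β.im * E2, by linear_combination β.re * E2 - β.im * E1,
      by linear_combination γ.re * E2 - γ.im * E1, by linear_combination -γ.re * E1 - γ.im * E2⟩
  · rw [map_mul, MvPolynomial.eval_C, hN', adj_eq (P.herm _) (h5 t) h3 ht, h6, h7,
      Complex.re_ofReal_mul, Complex.re_sum, mul_assoc]
    simp only [Complex.div_ofReal_re]
  · have := hτ.dotProduct_mulVec_nonneg (u i)
    rw [sub_eq_add_neg, ← neg_smul, h5, dotProduct_smul, h2, smul_eq_mul, mul_one,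
      Complex.zero_le_real] at this
    linarith

theorem no_root {ι : Type} [Fintype ι] (lam ρ R : ι → ℝ) (hρ : ∀ i, 0 ≤ ρ i) {L κ : ℝ}
    (hL0 : 0 ≤ L) (hL : ∀ i j, |R i - R j| ≤ L * |lam i - lam j|) (h : |κ| + L * ∑ i, ρ i < 1)
    {z : ℂ} (hz : z.im ≠ 0) : 1 + (κ : ℂ) + ∑ i, ((ρ i * R i : ℝ) : ℂ) / (z + lam i) ≠ 0 := by
  intro h0
  let a : ι → ℝ := fun i => z.re + lam i
  let w : ι → ℝ := fun i => ρ i / (a i ^ 2 + z.im ^ 2)
  have hp : ∀ i, 0 < a i ^ 2 + z.im ^ 2 := fun i => by positivity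
  have hw : ∀ i, 0 ≤ w i := fun i => div_nonneg (hρ i) (hp i).le
  have h1 : ∑ i, w i * R i = 0 := by
    have := congrArg Complex.im h0
    simp only [Complex.add_im, Complex.one_im, Complex.ofReal_im, Complex.im_sum, Complex.div_im,
      Complex.ofReal_re, Complex.add_re, Complex.normSq_apply, Complex.zero_im] at this
    refine (mul_eq_zero.1 (?_ : (-z.im) * _ = 0)).resolve_left (neg_ne_zero.2 hz)
    rw [Finset.mul_sum, ← this, zero_add, zero_add]
    exact Finset.sum_congr rfl fun i _ => by simp only [w, a]; ring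
  have h2 : 1 + κ + ∑ i, w i * R i * a i = 0 := by
    have := congrArg Complex.re h0
    simp only [Complex.add_im, Complex.one_re, Complex.ofReal_im, Complex.re_sum, Complex.div_re,
      Complex.ofReal_re, Complex.add_re, Complex.normSq_apply, Complex.zero_re] at this
    rw [← this]
    congr 1
    exact Finset.sum_congr rfl fun i _ => by simp only [w, a]; ring
  have h3 : ∑ i, w i * a i ^ 2 ≤ ∑ i, ρ i := Finset.sum_le_sum fun i _ => by
    simp only [w]
    rw [div_mul_eq_mul_div, div_le_iff₀ (hp i)]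
    nlinarith [mul_nonneg (hρ i) (sq_nonneg z.im)]
  have h4 : 0 ≤ ∑ i, ∑ j, w i * w j * ((R i - R j) * (a i - a j) + L * (a i - a j) ^ 2) :=
    Finset.sum_nonneg fun i _ => Finset.sum_nonneg fun j _ =>
      mul_nonneg (mul_nonneg (hw i) (hw j)) (by
        have e1 : a i - a j = lam i - lam j := by simp [a]
        have := neg_abs_le ((R i - R j) * (lam i - lam j))
        rw [abs_mul] at this
        rw [e1, ← sq_abs]
        nlinarith [mul_le_mul_of_nonneg_right (hL i j) (abs_nonneg (lam i - lam j))])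
  have h5 : ∑ i, ∑ j, w i * w j * ((R i - R j) * (a i - a j) + L * (a i - a j) ^ 2)
      = (∑ i, w i * R i * a i) * (∑ i, w i) + (∑ i, w i) * (∑ i, w i * R i * a i)
        - (∑ i, w i * R i) * (∑ i, w i * a i) - (∑ i, w i * a i) * (∑ i, w i * R i)
        + L * ((∑ i, w i * a i ^ 2) * (∑ i, w i) + (∑ i, w i) * (∑ i, w i * a i ^ 2)
          - 2 * ((∑ i, w i * a i) * ∑ i, w i * a i)) := by
    simp only [Finset.sum_mul_sum]
    simp only [Finset.mul_sum, ← Finset.sum_add_distrib, ← Finset.sum_sub_distrib]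
    exact Finset.sum_congr rfl fun i _ => Finset.sum_congr rfl fun j _ => by ring
  have h6 := Finset.sum_nonneg fun i (_ : i ∈ Finset.univ) => hρ i
  rw [h5, h1] at h4
  rcases (Finset.sum_nonneg fun i (_ : i ∈ Finset.univ) => hw i).eq_or_lt with h7 | h7
  · have h8 := (Finset.sum_eq_zero_iff_of_nonneg fun i _ => hw i).1 h7.symm
    rw [Finset.sum_eq_zero fun i hi => by rw [h8 i hi, zero_mul, zero_mul]] at h2
    nlinarith [neg_abs_le κ, mul_nonneg hL0 h6]
  · have h9 : 0 ≤ (∑ i, w i) * ((∑ i, w i * R i * a i) + L * ∑ i, w i * a i ^ 2) := by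
      nlinarith [mul_nonneg hL0 (mul_self_nonneg (∑ i, w i * a i))]
    have := nonneg_of_mul_nonneg_right h9 h7
    nlinarith [neg_abs_le κ, mul_le_mul_of_nonneg_left h3 hL0]

/-- Squared Euclidean length. -/
def eta (z : Fin 3 → ℝ) : ℝ := z 0 ^ 2 + z 1 ^ 2 + z 2 ^ 2

theorem eta_pos {z : Fin 3 → ℝ} (hz : z ≠ 0) : 0 < eta z := by
  refine lt_of_le_of_ne (by unfold eta; positivity) fun h => hz ?_
  unfold eta at h
  ext i
  fin_cases i <;> simp <;> nlinarith [sq_nonneg (z 0), sq_nonneg (z 1), sq_nonneg (z 2)]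

theorem lip_mono (a b c : Fin 3) (z y : Fin 3 → ℝ) :
    |z a * z b * z c / eta z - y a * y b * y c / eta y| ≤ 9 * ‖z - y‖ := by
  wlog h : eta y ≤ eta z
  · rw [abs_sub_comm, norm_sub_rev]; exact this a b c y z (not_le.1 h).le
  have hsq : ∀ (x : Fin 3 → ℝ) i, x i ^ 2 ≤ eta x := fun x i => by
    unfold eta
    fin_cases i <;> simp <;> nlinarith [sq_nonneg (x 0), sq_nonneg (x 1), sq_nonneg (x 2)]
  have hπ : ∀ x : Fin 3 → ℝ, |x b * x c / eta x| ≤ 1 := fun x => by
    have h0 : 0 ≤ eta x := by unfold eta; positivity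
    rw [abs_div, abs_of_nonneg h0]
    refine div_le_one_of_le₀ (abs_le.2 ⟨?_, ?_⟩) h0 <;>
      nlinarith [hsq x b, hsq x c, sq_nonneg (x b + x c), sq_nonneg (x b - x c)]
  have hδ : ∀ i, |z i - y i| ≤ ‖z - y‖ := fun i => norm_le_pi_norm (z - y) i
  set δ := ‖z - y‖
  have hδ0 : 0 ≤ δ := norm_nonneg _
  have h1 : |(z a - y a) * (z b * z c / eta z)| ≤ δ := by
    rw [abs_mul]
    exact (mul_le_of_le_one_right (abs_nonneg _) (hπ z)).trans (hδ a)
  by_cases hy : y = 0
  · subst hy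
    simp only [Pi.zero_apply, sub_zero, zero_mul, zero_div] at h1 ⊢
    rw [mul_assoc, mul_div_assoc]
    linarith
  have hy0 := eta_pos hy
  have hz0 := hy0.trans_le h
  set r := √(eta z) with hr
  have hr0 : 0 < r := Real.sqrt_pos.2 hz0
  have hr2 : r * r = eta z := Real.mul_self_sqrt hz0.le
  have hzr : ∀ i, |z i| ≤ r := fun i => Real.abs_le_sqrt (hsq z i)
  have hyr : ∀ i, |y i| ≤ r := fun i => Real.abs_le_sqrt ((hsq y i).trans h)
  have h2 : ∀ i j, |z i * z j - y i * y j| ≤ 2 * (r * δ) := fun i j => by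
    rw [(by ring : z i * z j - y i * y j = z i * (z j - y j) + y j * (z i - y i))]
    refine (abs_add_le _ _).trans ?_
    rw [abs_mul, abs_mul]
    linarith [mul_le_mul (hzr i) (hδ j) (abs_nonneg _) hr0.le,
      mul_le_mul (hyr j) (hδ i) (abs_nonneg _) hr0.le]
  have h3 : |eta y - eta z| ≤ 6 * (r * δ) := by
    have a0 := abs_le.1 (h2 0 0)
    have a1 := abs_le.1 (h2 1 1)
    have a2 := abs_le.1 (h2 2 2)
    unfold eta
    exact abs_le.2 ⟨by nlinarith, by nlinarith⟩
  have h4 : |(z b * z c - y b * y c) + y b * y c / eta y * (eta y - eta z)| ≤ 8 * (r * δ) := by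
    refine (abs_add_le _ _).trans ?_
    rw [abs_mul]
    linarith [h2 b c, mul_le_mul (hπ y) h3 (abs_nonneg _) zero_le_one]
  have e1 : z a * z b * z c / eta z - y a * y b * y c / eta y = (z a - y a) * (z b * z c / eta z)
      + y a * ((z b * z c - y b * y c) + y b * y c / eta y * (eta y - eta z)) / eta z := by
    field_simp; ring
  rw [e1]
  refine (abs_add_le _ _).trans ?_
  have h5 : |y a * ((z b * z c - y b * y c) + y b * y c / eta y * (eta y - eta z)) / eta z|
      ≤ 8 * δ := by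
    rw [abs_div, abs_mul, abs_of_pos hz0, div_le_iff₀ hz0]
    exact (mul_le_mul (hyr a) h4 (abs_nonneg _) hr0.le).trans_eq (by rw [← hr2]; ring)
  linarith

end Pool.Agent.MP_3d209c_an.H45
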