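import Pool.Agent.MP_3d209c_an.H45.Red

/-! Hermitian pencils in three variables with a marked non-real point of the curve. -/

namespace Pool.Agent.MP_3d209c_an.H45

open Filter Topology Matrix Pool.Agent.MP_3d209c_an.H71 Pool.Agent.MP_3d209c_an.H61
open scoped ComplexOrder

theorem exists_re {n j : ℕ} {G : MvPolynomial (Fin n) ℂ} (hG : G.IsHomogeneous j) :
    ∃ g : MvPolynomial (Fin n) ℝ, g.IsHomogeneous j ∧ ∀ x : Fin n → ℝ,
      MvPolynomial.eval x g = (MvPolynomial.eval (fun i => (x i : ℂ)) G).re := by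
  refine ⟨∑ m ∈ G.support, MvPolynomial.monomial m (G.coeff m).re,
    MvPolynomial.IsHomogeneous.sum _ _ _ fun m hm => MvPolynomial.isHomogeneous_monomial _ ?_,
    fun x => ?_⟩
  · by_contra h
    exact MvPolynomial.mem_support_iff.1 hm (hG.coeff_eq_zero h)
  · rw [map_sum, MvPolynomial.eval_eq' _ G, Complex.re_sum]
    refine Finset.sum_congr rfl fun m _ => ?_
    rw [MvPolynomial.eval_monomial, Finsupp.prod_fintype _ _ (by simp)]
    norm_cast
    rw [Complex.re_mul_ofReal]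

theorem det_hom {n k : ℕ} {A : Matrix (Fin k) (Fin k) (MvPolynomial (Fin n) ℂ)}
    (h : ∀ i j, (A i j).IsHomogeneous 1) : A.det.IsHomogeneous k := by
  rw [det_apply]
  refine MvPolynomial.IsHomogeneous.sum _ _ _ fun σ _ => ?_
  have : ∏ i, A (σ i) i ∈ MvPolynomial.homogeneousSubmodule (Fin n) ℂ k := by
    simpa using MvPolynomial.IsHomogeneous.prod Finset.univ (fun i => A (σ i) i) (fun _ => 1)
      fun i _ => h _ _
  exact zsmul_mem this _

theorem adj_poly {n k : ℕ} (M : (Fin n → ℝ) →ₗ[ℝ] Matrix (Fin (k + 1)) (Fin (k + 1)) ℂ)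
    (p q : Fin (k + 1) → ℂ) : ∃ g : MvPolynomial (Fin n) ℝ, g.IsHomogeneous k ∧
      ∀ x, MvPolynomial.eval x g = (star p ⬝ᵥ (M x).adjugate *ᵥ q).re := by
  let A : Matrix (Fin (k + 1)) (Fin (k + 1)) (MvPolynomial (Fin n) ℂ) := fun i j =>
    ∑ l, MvPolynomial.C (M (Pi.single l 1) i j) * MvPolynomial.X l
  have hA : ∀ x : Fin n → ℝ, (MvPolynomial.eval fun i => (x i : ℂ)).mapMatrix A = M x := fun x => by
    ext i j
    conv_rhs => rw [pi_eq_sum_univ' x]
    simp [A, Matrix.sum_apply, mul_comm]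
  have hA1 : ∀ i j, (A i j).IsHomogeneous 1 := fun i j =>
    MvPolynomial.IsHomogeneous.sum _ _ _ fun l _ => MvPolynomial.isHomogeneous_C_mul_X _ _
  obtain ⟨g, h1, h2⟩ := exists_re (j := k) (G := ∑ i, MvPolynomial.C (star (p i)) *
      ∑ j, A.adjugate i j * MvPolynomial.C (q j))
    (MvPolynomial.IsHomogeneous.sum _ _ _ fun i _ => MvPolynomial.IsHomogeneous.C_mul
      (MvPolynomial.IsHomogeneous.sum _ _ _ fun j _ => by
        rw [mul_comm, adjugate_fin_succ_eq_det_submatrix]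
        refine MvPolynomial.IsHomogeneous.C_mul ?_ _
        have := (det_hom (A := A.submatrix j.succAbove i.succAbove) fun r s =>
          hA1 _ _).C_mul ((-1) ^ (j + i : ℕ))
        simpa using this) _)
  refine ⟨g, h1, fun x => ?_⟩
  rw [h2, ← hA, ← RingHom.map_adjugate]
  simp [dotProduct, mulVec]

theorem spec {ι : Type} [Fintype ι] [DecidableEq ι] {A : Matrix ι ι ℂ} (hA : A.IsHermitian) :
    ∃ (lam : ι → ℝ) (u : ι → ι → ℂ), (∀ i, A *ᵥ u i = (lam i : ℂ) • u i) ∧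
      (∀ i, star (u i) ⬝ᵥ u i = 1) ∧
      (∀ p q, ∑ i, (star p ⬝ᵥ u i) * (star (u i) ⬝ᵥ q) = star p ⬝ᵥ q) ∧
      ∀ z : ℂ, (A + z • (1 : Matrix ι ι ℂ)).det = ∏ i, (z + lam i) := by
  refine ⟨hA.eigenvalues, fun i => hA.eigenvectorBasis i, fun i => ?_, fun i => ?_, fun p q => ?_,
    fun z => ?_⟩
  · rw [hA.mulVec_eigenvectorBasis]; rfl
  · have := hA.eigenvectorBasis.inner_eq_one i
    rwa [EuclideanSpace.inner_eq_star_dotProduct, dotProduct_comm] at this
  · have := hA.eigenvectorBasis.sum_inner_mul_inner (WithLp.toLp 2 p) (WithLp.toLp 2 q)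
    simpa only [EuclideanSpace.inner_eq_star_dotProduct, dotProduct_comm] using this
  · have := congrArg (Polynomial.eval (-z)) hA.charpoly_eq
    rw [eval_charpoly, scalar_apply, ← smul_one_eq_diagonal, Polynomial.eval_prod, neg_smul,
      ← neg_add', det_neg, add_comm] at this
    refine mul_left_cancel₀ (pow_ne_zero (Fintype.card ι) (neg_ne_zero.2 (one_ne_zero' ℂ))) ?_
    rw [this, ← Finset.card_univ, ← Finset.prod_const, ← Finset.prod_mul_distrib]
    exact Finset.prod_congr rfl fun i _ => by simp; ring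

theorem herm_dot {ι : Type} [Fintype ι] {A : Matrix ι ι ℂ} (hA : A.IsHermitian) {u : ι → ℂ}
    {l : ℝ} (hu : A *ᵥ u = (l : ℂ) • u) (y : ι → ℂ) :
    star u ⬝ᵥ A *ᵥ y = l * (star u ⬝ᵥ y) := by
  rw [dotProduct_mulVec, ← hA.eq, ← star_mulVec, hu]
  simp

theorem adj_eq {ι : Type} [Fintype ι] [DecidableEq ι] {A : Matrix ι ι ℂ} (hA : A.IsHermitian)
    {lam : ι → ℝ} {u : ι → ι → ℂ} (h1 : ∀ i, A *ᵥ u i = (lam i : ℂ) • u i)
    (h2 : ∀ p q, ∑ i, (star p ⬝ᵥ u i) * (star (u i) ⬝ᵥ q) = star p ⬝ᵥ q) (h3 : ∀ i, lam i ≠ 0)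
    (p q : ι → ℂ) : star p ⬝ᵥ A.adjugate *ᵥ q
      = A.det * ∑ i, (star p ⬝ᵥ u i) * (star (u i) ⬝ᵥ q) / lam i := by
  rw [← h2, Finset.mul_sum]
  refine Finset.sum_congr rfl fun i _ => ?_
  have := herm_dot hA (h1 i) (A.adjugate *ᵥ q)
  rw [mulVec_mulVec, mul_adjugate, smul_mulVec, one_mulVec, dotProduct_smul, smul_eq_mul] at this
  have h4 : (lam i : ℂ) ≠ 0 := Complex.ofReal_ne_zero.2 (h3 i)
  field_simp
  linear_combination (-(star p ⬝ᵥ u i)) * this

/-- A Hermitian determinantal representation, coordinates `Z`, and a kernel vector at the point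
with coordinates `(0, 1, i)`. -/
structure Pen (e : Fin 3 → ℝ) (f : MvPolynomial (Fin 3) ℝ) (k : ℕ) where
  M : (Fin 3 → ℝ) →ₗ[ℝ] Matrix (Fin (k + 1)) (Fin (k + 1)) ℂ
  herm : ∀ x, (M x).IsHermitian
  one : M e = 1
  det : ∀ x, ((MvPolynomial.eval x f : ℝ) : ℂ) = (MvPolynomial.eval e f : ℝ) * (M x).det
  Z : (Fin 3 → ℝ) →ₗ[ℝ] (Fin 3 → ℝ)
  inj : Function.Injective Z
  Ze : Z e = ![1, 0, 0]
  a : Fin (k + 1) → ℂ
  b : Fin (k + 1) → ℂ
  ha : a ≠ 0
  rel : ∀ x, M x *ᵥ a = (Z x 0 : ℂ) • a + ((Z x 2 : ℂ) - Complex.I * Z x 1) • b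

theorem exists_pen {e : Fin 3 → ℝ} {f : MvPolynomial (Fin 3) ℝ} {k : ℕ}
    (hd : f.IsHomogeneous (k + 1)) (hf : Hyp e f) : Nonempty (Pen e f k) := by
  have he : e ≠ 0 := by
    rintro rfl
    have := eval_scale hd 0 0
    exact hf.1 (by simpa using this)
  obtain ⟨a2, h2⟩ := exists_linearIndependent_cons_of_lt_finrank (R := ℝ) (v := ![e])
    (linearIndependent_unique_iff.2 (by simpa using he)) (by simp)
  obtain ⟨a1, h1⟩ := exists_linearIndependent_cons_of_lt_finrank h2 (by simp)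
  obtain ⟨B, hB'⟩ : ∃ B : Module.Basis (Fin 3) ℝ (Fin 3 → ℝ), ⇑B = ![a1, a2, e] :=
    ⟨basisOfLinearIndependentOfCardEqFinrank' ![a1, a2, e] h1 (by simp),
      coe_basisOfLinearIndependentOfCardEqFinrank' _ _ _⟩
  have hB : ∀ x, x = B.repr x 2 • e + (B.repr x 0 • a1 + B.repr x 1 • a2) := fun x => by
    have := (B.sum_repr x).symm
    simp only [Fin.sum_univ_three, hB', Matrix.cons_val] at this
    exact this.trans (by abel)
  have hBe : B.repr e = Finsupp.single 2 1 := by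
    have : e = B 2 := by simp [hB']
    rw [this, B.repr_self]
  obtain ⟨k', A1, A2, m1, m2, h⟩ := rep3 hd hf a1 a2
  obtain rfl : k' = k + 1 := by
    have h3 := h 2 0 0
    have h4 := eval_scale hd 2 e
    simp only [zero_smul, add_zero, Complex.ofReal_zero, det_smul, det_one, Fintype.card_fin, h4,
      mul_one] at h3
    norm_cast at h3
    rw [mul_comm] at h3
    exact (Nat.pow_right_injective le_rfl (Nat.cast_injective (mul_left_cancel₀ hf.1 h3))).symm
  obtain ⟨μ, hμ⟩ := Complex.exists_root (f := (A1 + Complex.I • A2).charpoly) (by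
    rw [charpoly_degree_eq_dim, Fintype.card_fin]; exact_mod_cast k.succ_pos)
  rw [Polynomial.IsRoot, eval_charpoly, scalar_apply, ← smul_one_eq_diagonal] at hμ
  obtain ⟨a, ha, hv⟩ := exists_mulVec_eq_zero_iff.2 hμ
  rw [sub_mulVec, add_mulVec, smul_mulVec, smul_mulVec, one_mulVec] at hv
  let c : Fin 3 → (Fin 3 → ℝ) →ₗ[ℝ] ℝ := fun i => B.coord i
  let M := (c 2).smulRight (1 : Matrix (Fin (k + 1)) (Fin (k + 1)) ℂ) + (c 0).smulRight A1
    + (c 1).smulRight A2
  have hM : ∀ x, M x = (B.repr x 2 : ℂ) • (1 : Matrix _ _ ℂ) + (B.repr x 0 : ℂ) • A1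
      + (B.repr x 1 : ℂ) • A2 := fun x => by simp [M, c]
  refine ⟨⟨M, fun x => ?_, by simp [hM, hBe], fun x => ?_,
    LinearMap.pi ![c 2 + μ.re • c 0 + μ.im • c 1, c 0, c 1], ?_, ?_, a,
    A2 *ᵥ a - (μ.im : ℂ) • a, ha, fun x => ?_⟩⟩
  · simp [hM, IsHermitian, m1.eq, m2.eq]
  · rw [hM, ← h, ← hB]
  · refine (injective_iff_map_eq_zero _).2 fun x hx => ?_
    have e0 := congrFun hx 0
    have e1 := congrFun hx 1
    have e2 := congrFun hx 2
    simp [c] at e0 e1 e2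
    rw [hB x]
    simp [e1, e2] at e0
    simp [e0, e1, e2]
  · ext i
    fin_cases i <;> simp [c, hBe]
  · have e1 : A1 *ᵥ a = μ • a - Complex.I • A2 *ᵥ a := by linear_combination (norm := module) -hv
    rw [hM, add_mulVec, add_mulVec, smul_mulVec, smul_mulVec, smul_mulVec, one_mulVec, e1]
    simp only [LinearMap.pi_apply, Matrix.cons_val, LinearMap.add_apply, LinearMap.smul_apply, c,
      Module.Basis.coord_apply, smul_eq_mul]
    conv_lhs => rw [← Complex.re_add_im μ]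
    push_cast
    module

end Pool.Agent.MP_3d209c_an.H45
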