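import Pool.Agent.MP_3d209c_an.H45.Poly

/-! Lines, and pencils of lines and conics. -/

namespace Pool.Agent.MP_3d209c_an.H45

open Filter Topology Matrix Pool.Agent.MP_3d209c_an.H71 Pool.Agent.MP_3d209c_an.H61 Module

variable {m : ℕ} {q : Fin m → Fin 3 → ℝ} {f g : MvPolynomial (Fin 3) ℝ}

theorem line_dir (hne : (interior (cone q)).Nonempty) {w : Fin 3 → ℝ}
    (hw : lin w ∈ HV (interior (cone q))) : ∀ᶠ v in 𝓝 (0 : Fin 3 → ℝ),
      zeros q (lin w) ⊆ zeros q (lin v) → lin w + lin v ∈ HV (interior (cone q)) := by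
  obtain ⟨e, he⟩ := hne
  have h0 : ∀ x ∈ interior (cone q), w ⬝ᵥ x ≠ 0 := fun x hx => by
    simpa [eval_lin] using (hw.2 x hx).1
  have h1 : ∀ x ∈ cone q, 0 ≤ (w ⬝ᵥ x) * (w ⬝ᵥ e) := fun x hx => not_lt.1 fun h => by
    have h2 := h0 e he
    refine h0 _ (add_int hx he (t := -(w ⬝ᵥ x) * (w ⬝ᵥ e) / (w ⬝ᵥ e) ^ 2)
      (div_pos (by linarith) (by positivity))) ?_
    rw [dotProduct_add, dotProduct_smul, smul_eq_mul]
    field_simp
    ring
  have h2 : ∀ᶠ v in 𝓝 (0 : Fin 3 → ℝ), ∀ j, j ∉ zeros q (lin w) →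
      0 < (w ⬝ᵥ q j + 2 * (v ⬝ᵥ q j)) * (w ⬝ᵥ e) :=
    eventually_all.2 fun j => eventually_all.2 fun hj => by
      have hc : Continuous fun v : Fin 3 → ℝ => (w ⬝ᵥ q j + 2 * (v ⬝ᵥ q j)) * (w ⬝ᵥ e) := by
        fun_prop
      refine hc.continuousAt.eventually_const_lt ?_
      simpa using (h1 _ (q_mem j)).lt_of_ne' (mul_ne_zero (by simpa [zeros, eval_lin] using hj)
        (h0 e he))
  filter_upwards [h2] with v hv hz
  rw [← lin_add]
  have := prod_lin_mem (V := interior (cone q)) (ι := Unit) (fun _ => w + v) fun _ x hx h => by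
    have h3 := (h1 x (interior_subset hx)).lt_of_ne' (mul_ne_zero (h0 x hx) (h0 e he))
    have h4 : 0 ≤ (w ⬝ᵥ x + 2 * (v ⬝ᵥ x)) * (w ⬝ᵥ e) := by
      obtain ⟨s, hs, rfl⟩ := interior_subset hx
      simp only [dotProduct_sum, dotProduct_smul, smul_eq_mul, Finset.mul_sum,
        ← Finset.sum_add_distrib, Finset.sum_mul]
      refine Finset.sum_nonneg fun j _ => ?_
      by_cases hj : j ∈ zeros q (lin w)
      · have a1 : w ⬝ᵥ q j = 0 := by simpa [zeros, eval_lin] using hj
        have a2 : v ⬝ᵥ q j = 0 := by simpa [zeros, eval_lin] using hz hj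
        simp [a1, a2]
      · nlinarith [mul_nonneg (hs j) (hv j hj).le]
    rw [add_dotProduct] at h
    have h5 : v ⬝ᵥ x = -(w ⬝ᵥ x) := by linarith
    rw [h5] at h4
    linarith
  simpa using this

theorem flat_line (hne : (interior (cone q)).Nonempty) (hf : f ∈ HV (interior (cone q)))
    (hd : f.IsHomogeneous 1) (h : zeros q f = ∅) : Flat (interior (cone q)) f := by
  obtain ⟨w, rfl⟩ := exists_lin hd
  let G : (Fin 3 → ℝ) →ₗ[ℝ] MvPolynomial (Fin 3) ℝ := ⟨⟨lin, lin_add⟩, lin_smul⟩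
  have h0 : lin w ≠ 0 := fun h0 => (hf.2 _ hne.some_mem).1 (by simp [h0])
  obtain ⟨x, -, y, -, hxy⟩ := exists_two G h0 ⊤ (by
    have h1 : (Submodule.span ℝ {lin w}).comap G ≤ Submodule.span ℝ {w} := fun v hv => by
      obtain ⟨c, hc⟩ := Submodule.mem_span_singleton.1 hv
      refine Submodule.mem_span_singleton.2 ⟨c, sub_eq_zero.1 (dotProduct_self_eq_zero.1 ?_)⟩
      rw [← eval_lin, lin_sub, lin_smul, hc]
      simp [G]
    have h2 : finrank ℝ (Submodule.span ℝ {w}) ≤ 1 := by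
      simpa using finrank_span_le_card (R := ℝ) ({w} : Set (Fin 3 → ℝ))
    have := Submodule.finrank_mono h1
    simp only [finrank_top, finrank_fintype_fun_eq_card, Fintype.card_fin]
    omega)
  refine ⟨1, G x, G y, hd, lin_homogeneous x, lin_homogeneous y, hxy, ?_⟩
  have ht : Tendsto (fun p : ℝ × ℝ => p.1 • x + p.2 • y) (𝓝 0) (𝓝 0) :=
    Continuous.tendsto' (by fun_prop) _ _ (by simp)
  filter_upwards [ht.eventually (line_dir hne hf)] with p hp
  simpa [lin_add, lin_smul, G] using hp (by simp [h])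

theorem open_line (hne : (interior (cone q)).Nonempty) (hf : f ∈ HV (interior (cone q)))
    (hd : f.IsHomogeneous 1) (hg : g.IsHomogeneous 1) (h : zeros q f = zeros q g) :
    ∀ᶠ r : ℝ in 𝓝 0, f + r • g ∈ HV (interior (cone q)) := by
  obtain ⟨w, rfl⟩ := exists_lin hd
  obtain ⟨v, rfl⟩ := exists_lin hg
  have ht : Tendsto (fun r : ℝ => r • v) (𝓝 0) (𝓝 0) :=
    Continuous.tendsto' (by fun_prop) _ _ (by simp)
  filter_upwards [ht.eventually (line_dir hne hf)] with r hr
  rw [← lin_smul]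
  refine hr fun j hj => ?_
  have : j ∈ zeros q (lin v) := h ▸ hj
  simp only [zeros, Set.mem_ofPred_eq, lin_smul, MvPolynomial.smul_eval] at this ⊢
  rw [this, mul_zero]

theorem quad3 (hg : g.IsHomogeneous 2) (x y z : Fin 3 → ℝ) (a b c : ℝ) :
    MvPolynomial.eval (a • x + b • y + c • z) g = a * b * MvPolynomial.eval (x + y) g
      + a * c * MvPolynomial.eval (x + z) g + b * c * MvPolynomial.eval (y + z) g
      + a * (a - b - c) * MvPolynomial.eval x g + b * (b - a - c) * MvPolynomial.eval y g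
      + c * (c - a - b) * MvPolynomial.eval z g := by
  have : g ∈ MvPolynomial.homogeneousSubmodule (Fin 3) ℝ 1 *
      MvPolynomial.homogeneousSubmodule (Fin 3) ℝ 1 := by
    rwa [← sq, MvPolynomial.homogeneousSubmodule_one_pow]
  refine Submodule.mul_induction_on this (fun u hu v hv => ?_) fun u v hu hv => ?_
  · obtain ⟨u, rfl⟩ := exists_lin hu
    obtain ⟨v, rfl⟩ := exists_lin hv
    simp only [map_mul, eval_lin, dotProduct_add, dotProduct_smul, smul_eq_mul]
    ring
  · simp only [map_add, hu, hv]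
    ring

theorem not_comb (hq : Pairwise fun j l => LinearIndependent ℝ ![q j, q l])
    (hd : f.IsHomogeneous 2) (h : ∀ j l, j ≠ l → MvPolynomial.eval (q j + q l) f ≠ 0)
    {i j l : Fin m} (hij : i ≠ j) (hil : i ≠ l) (hjl : j ≠ l) (hi : i ∈ zeros q f)
    (hj : j ∈ zeros q f) (hl : l ∈ zeros q f) (a b : ℝ) : q l ≠ a • q i + b • q j := fun e => by
  have := quad3 hd (q i) (q j) 0 a b 0
  rw [zero_smul, add_zero, ← e, hi, hj, hl] at this
  rcases mul_eq_zero.1 ((mul_eq_zero.1 (by linarith : a * b * _ = 0)).resolve_right (h i j hij))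
    with rfl | rfl
  · exact one_ne_zero (LinearIndependent.pair_iff.1 (hq hjl) (-b) 1 (by rw [e]; module)).2
  · exact one_ne_zero (LinearIndependent.pair_iff.1 (hq hil) (-a) 1 (by rw [e]; module)).2

theorem open_conic (hq : Pairwise fun j l => LinearIndependent ℝ ![q j, q l])
    (hne : (interior (cone q)).Nonempty) (hf : f ∈ HV (interior (cone q)))
    (hd : f.IsHomogeneous 2) (hi : Irreducible f) (hg : g.IsHomogeneous 2)
    (h : zeros q f = zeros q g) (h4 : (zeros q f).ncard = 4) :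
    ∀ᶠ r : ℝ in 𝓝 0, f + r • g ∈ HV (interior (cone q)) := by
  obtain ⟨G, W, a1, a2, a3, a4, a5⟩ := directions (k := 1) hq hne hf hd hi le_rfl
  obtain ⟨θ, hθ, hθ'⟩ := exists_out W ((Submodule.span ℝ {f}).comap G) (by
    simp only [Nat.add_one_sub_one, Nat.choose] at a3; omega)
  have hs := fun j l => sum_ne (k := 1) hq hne hf hd hi le_rfl (j := j) (l := l)
  obtain ⟨i, j, l, o, hij, hil, hio, hjl, hjo, hlo, hZ⟩ := Set.ncard_eq_four.1 h4
  have z1 : i ∈ zeros q f := by simp [hZ]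
  have z2 : j ∈ zeros q f := by simp [hZ]
  have z3 : l ∈ zeros q f := by simp [hZ]
  have z4 : o ∈ zeros q f := by simp [hZ]
  have hsp : ∀ x, ∃ a b c : ℝ, x = a • q i + b • q j + c • q l := fun x => by
    have h1 : LinearIndependent ℝ ![q l, q i, q j] := linearIndependent_finCons.2 ⟨hq hij, fun h => by
      rw [Matrix.range_cons, Matrix.range_cons, Matrix.range_empty, Set.union_empty,
        Set.singleton_union, Submodule.mem_span_pair] at h
      obtain ⟨a, b, h⟩ := h
      exact not_comb hq hd hs hij hil hjl z1 z2 z3 a b h.symm⟩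
    obtain ⟨c, hc⟩ := (Submodule.mem_span_range_iff_exists_fun ℝ).1
      (h1.span_eq_top_of_card_eq_finrank' (by simp) ▸ Submodule.mem_top (x := x))
    exact ⟨c 1, c 2, c 0, by rw [← hc]; simp [Fin.sum_univ_three]; abel⟩
  have key : ∀ p : MvPolynomial (Fin 3) ℝ, p.IsHomogeneous 2 → zeros q f ⊆ zeros q p →
      MvPolynomial.eval (q i + q j) p = 0 → MvPolynomial.eval (q i + q l) p = 0 → p = 0 := by
    intro p hp hz e1 e2
    obtain ⟨a, b, c, e⟩ := hsp (q o)
    have hb : b ≠ 0 := fun hb => not_comb hq hd hs hil hio hlo z1 z3 z4 a c (by simpa [hb] using e)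
    have hc : c ≠ 0 := fun hc => not_comb hq hd hs hij hio hjo z1 z2 z4 a b (by simpa [hc] using e)
    have e3 := quad3 hp (q i) (q j) (q l) a b c
    rw [← e, hz z1, hz z2, hz z3, hz z4, e1, e2] at e3
    have e4 := (mul_eq_zero.1 (by linarith : b * c * _ = 0)).resolve_left (mul_ne_zero hb hc)
    refine MvPolynomial.funext fun x => ?_
    obtain ⟨a, b, c, rfl⟩ := hsp x
    rw [quad3 hp, hz z1, hz z2, hz z3, e1, e2, e4]
    simp
  let L : (Fin 3 → ℝ) →ₗ[ℝ] (Fin 2 → ℝ) := LinearMap.pi fun r =>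
    evl (![q i + q j, q i + q l] r) ∘ₗ Fintype.linearCombination ℝ ![f, g, G θ]
  obtain ⟨c, hc, hc0⟩ := exists_out (LinearMap.ker L) ⊥ (by
    have := finrank_ker_ge L
    simp only [finrank_fintype_fun_eq_card, Fintype.card_fin, finrank_bot] at this ⊢
    omega)
  have e0 : c 0 • f + c 1 • g + c 2 • G θ = 0 := by
    refine key _ ((MvPolynomial.homogeneousSubmodule _ ℝ 2).add_mem
      ((MvPolynomial.homogeneousSubmodule _ ℝ 2).add_mem (Submodule.smul_mem _ _ hd)
        (Submodule.smul_mem _ _ hg)) (Submodule.smul_mem _ _ (a1 θ))) (fun r hr => ?_) ?_ ?_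
    · have b1 : MvPolynomial.eval (q r) f = 0 := hr
      have b2 : MvPolynomial.eval (q r) g = 0 := (h ▸ hr : r ∈ zeros q g)
      have b3 : MvPolynomial.eval (q r) (G θ) = 0 := a4 θ hθ hr
      simp [zeros, b1, b2, b3]
    · simpa [L, evl_apply, Fintype.linearCombination_apply, Fin.sum_univ_three] using congrFun hc 0
    · simpa [L, evl_apply, Fintype.linearCombination_apply, Fin.sum_univ_three] using congrFun hc 1
  have h1 : c 1 ≠ 0 := fun h1 => by
    rw [h1, zero_smul, add_zero] at e0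
    have h2 : c 2 = 0 := by_contra fun h2 => hθ' ((Submodule.smul_mem_iff _ h2).1
      (Submodule.mem_span_singleton.2 ⟨-c 0, by
        rw [map_smul]; linear_combination (norm := module) -e0⟩))
    rw [h2, zero_smul, add_zero] at e0
    have h0 := (smul_eq_zero.1 e0).resolve_right hi.ne_zero
    exact hc0 (funext fun r => by fin_cases r <;> assumption)
  have h2 : ∀ᶠ r : ℝ in 𝓝 0, c 1 - r * c 0 ≠ 0 :=
    ContinuousAt.eventually_ne (by fun_prop) (by simpa using h1)
  have h3 : Tendsto (fun r : ℝ => (-(r * c 2) / (c 1 - r * c 0)) • θ) (𝓝 0) (𝓝 0) := by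
    have : ContinuousAt (fun r : ℝ => (-(r * c 2) / (c 1 - r * c 0)) • θ) 0 := by
      fun_prop (disch := simpa using h1)
    simpa [ContinuousAt] using this
  filter_upwards [h2, h3.eventually a5] with r b1 b2
  convert smul_memH hne (b2 (W.smul_mem _ hθ)) (div_ne_zero b1 h1) using 1
  rw [map_smul, smul_add, smul_smul, (by field_simp : (c 1 - r * c 0) / c 1 *
    (-(r * c 2) / (c 1 - r * c 0)) = -(r * c 2) / c 1), (by field_simp :
    (c 1 - r * c 0) / c 1 = 1 - r / c 1 * c 0), (by ring : -(r * c 2) / c 1 = -(r / c 1 * c 2))]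
  conv_lhs => rw [(by field_simp : r = r / c 1 * c 1)]
  linear_combination (norm := module) (r / c 1) • e0

theorem flat_pair {n d : ℕ} {V : Set (Fin n → ℝ)} (hne : V.Nonempty)
    {f g : MvPolynomial (Fin n) ℝ} (hf : f.IsHomogeneous d) (hg : g.IsHomogeneous d)
    (i1 : Irreducible f) (i2 : Irreducible g) (hfg : ¬Associated f g)
    (h1 : ∀ᶠ r : ℝ in 𝓝 0, f + r • g ∈ HV V) (h2 : ∀ᶠ r : ℝ in 𝓝 0, g + r • f ∈ HV V) :
    Flat V (f * g) := by
  refine ⟨_, f * f, g * g, hf.mul hg, hf.mul hf, hg.mul hg,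
    Fintype.linearIndependent_iff.2 fun c hc => ?_, ?_⟩
  · simp only [Fin.sum_univ_three, Matrix.cons_val] at hc
    have key : ∀ {f g : MvPolynomial (Fin n) ℝ} {a b c : ℝ}, Irreducible f → Irreducible g →
        ¬Associated f g → a • (f * g) + b • (f * f) + c • (g * g) = 0 → c = 0 := by
      intro f g a b c i1 i2 hfg h
      by_contra hc
      refine hfg (i1.associated_of_dvd i2 (or_self_iff.1 (i1.prime.dvd_or_dvd (b := g)
        ⟨-(c⁻¹ • (a • g + b • f)), ?_⟩)))
      rw [← inv_smul_smul₀ hc (g * g), mul_neg, mul_smul_comm, mul_add, mul_smul_comm,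
        mul_smul_comm, ← smul_neg, eq_neg_of_add_eq_zero_right h]
    have a2 := key i1 i2 hfg hc
    have a1 := key (a := c 0) (b := c 2) (c := c 1) i2 i1 (fun h => hfg h.symm) (by
      rw [← hc, mul_comm g f]; abel)
    rw [a1, a2, zero_smul, zero_smul, add_zero, add_zero] at hc
    have a0 := (smul_eq_zero.1 hc).resolve_right (mul_ne_zero i1.ne_zero i2.ne_zero)
    intro r
    fin_cases r <;> assumption
  · let l : ℝ × ℝ → ℝ := fun p => (1 + √(1 - 4 * (p.1 * p.2))) / 2
    have l0 : ∀ p, l p ≠ 0 := fun p => by positivity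
    have lc : Continuous l := by fun_prop
    have t1 : Tendsto (fun p : ℝ × ℝ => p.2 / l p) (𝓝 0) (𝓝 0) :=
      Continuous.tendsto' (continuous_snd.div lc l0) _ _ (by simp)
    have t2 : Tendsto (fun p : ℝ × ℝ => p.1 / l p) (𝓝 0) (𝓝 0) :=
      Continuous.tendsto' (continuous_fst.div lc l0) _ _ (by simp)
    have t3 : ∀ᶠ p : ℝ × ℝ in 𝓝 0, 0 < 1 - 4 * (p.1 * p.2) :=
      ((by fun_prop : Continuous fun p : ℝ × ℝ => 1 - 4 * (p.1 * p.2)).continuousAt
        (x := 0)).eventually_const_lt (by simp)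
    filter_upwards [t1.eventually h1, t2.eventually h2, t3] with p b1 b2 b3
    convert smul_memH hne (mul_memH b1 b2) (l0 p) using 1
    have e1 : l p + p.1 * p.2 / l p = 1 := by
      have := l0 p
      field_simp
      simp only [l]
      nlinarith [Real.mul_self_sqrt b3.le]
    have e2 : l p • ((f + (p.2 / l p) • g) * (g + (p.1 / l p) • f)) = (l p + l p * (p.2 / l p *
        (p.1 / l p))) • (f * g) + ((l p * (p.1 / l p)) • (f * f) + (l p * (p.2 / l p)) • (g * g)) := by
      simp only [add_mul, mul_add, smul_mul_assoc, mul_smul_comm, mul_comm g f]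
      module
    have := l0 p
    rw [e2, mul_div_cancel₀ _ this, mul_div_cancel₀ _ this,
      (by rw [← e1]; field_simp : l p + l p * (p.2 / l p * (p.1 / l p)) = 1), one_smul]

end Pool.Agent.MP_3d209c_an.H45
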