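import Pool.Agent.MP_3d209c_an.H45.Small
import Pool.Agent.MP_3d209c_an.H45.Defs

/-! Flat directions for polyhedral cones in three dimensions. -/

namespace Pool.Agent.MP_3d209c_an.H45

open Filter Topology Matrix Pool.Agent.MP_3d209c_an.H71 Pool.Agent.MP_3d209c_an.H61 Module
open scoped ComplexOrder

variable {m : ℕ} {q : Fin m → Fin 3 → ℝ} {e : Fin 3 → ℝ} {f : MvPolynomial (Fin 3) ℝ} {k : ℕ}

theorem comb_mem {x y : Fin 3 → ℝ} (hx : x ∈ cone q) (hy : y ∈ cone q) {a b : ℝ} (ha : 0 ≤ a)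
    (hb : 0 ≤ b) : a • x + b • y ∈ cone q := by
  obtain ⟨s, hs, rfl⟩ := hx
  obtain ⟨t, ht, rfl⟩ := hy
  refine ⟨fun j => a * s j + b * t j, fun j => add_nonneg (mul_nonneg ha (hs j))
    (mul_nonneg hb (ht j)), ?_⟩
  simp [Finset.smul_sum, add_smul, smul_smul, Finset.sum_add_distrib]

theorem q_mem (j : Fin m) : q j ∈ cone q :=
  ⟨Pi.single j 1, fun i => by by_cases h : i = j <;> simp [h], by simp [Pi.single_apply]⟩

theorem convex_int : Convex ℝ (interior (cone q)) :=
  Convex.interior fun _ hx _ hy _ _ ha hb _ => comb_mem hx hy ha hb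

theorem add_int {x y : Fin 3 → ℝ} (hx : x ∈ cone q) (hy : y ∈ interior (cone q)) {t : ℝ}
    (ht : 0 < t) : x + t • y ∈ interior (cone q) := by
  refine interior_maximal ?_ (((isOpenMap_add_left x).comp (isOpenMap_smul₀ ht.ne')) _
    isOpen_interior) ⟨y, hy, rfl⟩
  rintro _ ⟨z, hz, rfl⟩
  simpa using comb_mem hx (interior_subset hz) zero_le_one ht.le

theorem isCone_int (h : (interior (cone q)).Nonempty) : IsCone (interior (cone q)) :=
  ⟨h, fun v hv r hr => by simpa using add_int (x := 0) ⟨0, by simp, by simp⟩ hv hr⟩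

theorem Pen.ne (P : Pen e f k) : e ≠ 0 := fun h => by
  simpa using congrFun (P.Ze.symm.trans ((congrArg P.Z h).trans (map_zero _))) 0

theorem Pen.near (P : Pen e f k) (he : e ∈ interior (cone q)) (hf : f ∈ HV (interior (cone q)))
    (hq : ∀ j l, j ≠ l → MvPolynomial.eval (q j + q l) f ≠ 0) :
    ∃ C : ℝ, 0 ≤ C ∧ ∀ x ∈ interior (cone q), ∀ l, (∀ τ, (P.M (x - τ • e)).PosSemidef → τ ≤ l) →
      ∃ (j : Fin m) (s : ℝ), (s = 0 ∨ j ∈ zeros q f) ∧ ‖x - s • q j‖ ≤ C * l := by
  have hp : ∀ x ∈ cone q, (P.M x).PosSemidef := fun x hx =>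
    P.psd fun t ht => (hf.2 _ (add_int hx he ht)).1
  have h1 : ∀ᶠ μ : ℝ in 𝓝 0, ∀ j l, j ≠ l → (P.M (q j + q l - μ • e)).PosSemidef :=
    eventually_all.2 fun j => eventually_all.2 fun l => eventually_all.2 fun h =>
      P.margin (hp _ (by simpa using comb_mem (q_mem j) (q_mem l) zero_le_one zero_le_one))
        (hq j l h)
  have h2 : ∀ᶠ μ : ℝ in 𝓝 0, ∀ j, j ∉ zeros q f → (P.M (q j - μ • e)).PosSemidef :=
    eventually_all.2 fun j => eventually_all.2 fun h => P.margin (hp _ (q_mem j)) h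
  obtain ⟨μ, ⟨h1, h2⟩, hμ⟩ := (((h1.and h2).filter_mono nhdsWithin_le_nhds).and
    (self_mem_nhdsWithin (s := Set.Ioi (0 : ℝ)))).exists
  have hμ0 : 0 < μ := hμ
  refine ⟨∑ j, ‖q j‖ / μ, by positivity, fun x hx l hl => ?_⟩
  obtain ⟨s, hs, rfl⟩ := interior_subset hx
  have hm : (Finset.univ : Finset (Fin m)).Nonempty := by
    by_contra h0
    rw [Finset.not_nonempty_iff_eq_empty] at h0
    obtain ⟨s, -, hs⟩ := interior_subset he
    exact P.ne (hs.trans (by rw [h0, Finset.sum_empty]))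
  obtain ⟨i, -, hi⟩ := Finset.exists_max_image Finset.univ s hm
  have key : ∀ (j : Fin m) (c : Fin m → ℝ), (∀ r, s j * c r ≤ s r) →
      (P.M (∑ r, c r • q r - μ • e)).PosSemidef → s j * μ ≤ l := fun j c hc hP => hl _ (by
    have : ∑ r, s r • q r - (s j * μ) • e = ∑ r, (s r - s j * c r) • q r
        + s j • (∑ r, c r • q r - μ • e) := by
      simp only [sub_smul, Finset.sum_sub_distrib, smul_sub, Finset.smul_sum, smul_smul]
      abel
    rw [this, map_add, map_smul]
    exact (hp _ ⟨_, fun r => sub_nonneg.2 (hc r), rfl⟩).add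
      (hP.smul (hs j)))
  have h3 : ∀ j, j ≠ i → s j * μ ≤ l := fun j hj =>
    key j (Pi.single i 1 + Pi.single j 1) (fun r => by
      by_cases h : r = i
      · simpa [h, hj.symm] using hi j (Finset.mem_univ _)
      · by_cases h' : r = j <;> simp [h, h', hj, hs])
      (by simpa [add_smul, Finset.sum_add_distrib, Pi.single_apply] using h1 i j hj.symm)
  have h0 : 0 ≤ l := hl 0 (by simpa using hp _ (interior_subset hx))
  have fin : ∀ c : Fin m → ℝ, (∀ r, 0 ≤ c r ∧ c r * μ ≤ l) →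
      ‖∑ r, c r • q r‖ ≤ (∑ j, ‖q j‖ / μ) * l := fun c hc => by
    rw [Finset.sum_mul]
    refine (norm_sum_le _ _).trans (Finset.sum_le_sum fun r _ => ?_)
    rw [norm_smul, Real.norm_of_nonneg (hc r).1, div_mul_eq_mul_div, le_div_iff₀ hμ0]
    nlinarith [mul_le_mul_of_nonneg_left (hc r).2 (norm_nonneg (q r))]
  by_cases hz : i ∈ zeros q f
  · refine ⟨i, s i, Or.inr hz, le_of_eq_of_le (congrArg _ ?_) (fin (s - Pi.single i (s i))
      fun r => ?_)⟩
    · simp [sub_smul, Pi.single_apply]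
    · by_cases h : r = i
      · simpa [h] using h0
      · simpa [h, hs] using h3 r h
  · refine ⟨i, 0, Or.inl rfl, by
      simpa using fin s fun r => ⟨hs r, by
        by_cases h : r = i
        · exact h ▸ key i (Pi.single i 1) (fun r => by by_cases h : r = i <;> simp [h, hs])
            (by simpa [Pi.single_apply] using h2 i hz)
        · exact h3 r h⟩⟩

theorem sum_ne (hq : Pairwise fun j l => LinearIndependent ℝ ![q j, q l])
    (hne : (interior (cone q)).Nonempty) (hf : f ∈ HV (interior (cone q)))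
    (hd : f.IsHomogeneous (k + 1)) (hi : Irreducible f) (hk : 1 ≤ k) {j l : Fin m} (h : j ≠ l) :
    MvPolynomial.eval (q j + q l) f ≠ 0 := fun h0 => by
  obtain ⟨e, he⟩ := hne
  obtain ⟨P⟩ := exists_pen hd (hf.2 e he)
  have hp : ∀ j, (P.M (q j)).PosSemidef := fun j =>
    P.psd fun t ht => (hf.2 _ (add_int (q_mem j) he ht)).1
  have h1 := P.det (q j + q l)
  rw [h0] at h1
  obtain ⟨u, hu, hu0⟩ := exists_mulVec_eq_zero_iff.2 ((mul_eq_zero.1 h1.symm).resolve_left
    (Complex.ofReal_ne_zero.2 (hf.2 e he).1))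
  have h2 := congrArg (star u ⬝ᵥ ·) hu0
  simp only [map_add, add_mulVec, dotProduct_add, dotProduct_zero] at h2
  obtain ⟨h3, h4⟩ := (add_eq_zero_iff_of_nonneg ((hp j).dotProduct_mulVec_nonneg u)
    ((hp l).dotProduct_mulVec_nonneg u)).1 h2
  obtain ⟨w, hw⟩ := P.common (hq h) hu (((hp j).dotProduct_mulVec_zero_iff u).1 h3)
    (((hp l).dotProduct_mulVec_zero_iff u).1 h4)
  exact P.no_common hi hk hu hw

theorem directions (hq : Pairwise fun j l => LinearIndependent ℝ ![q j, q l])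
    (hne : (interior (cone q)).Nonempty) (hf : f ∈ HV (interior (cone q)))
    (hd : f.IsHomogeneous (k + 1)) (hi : Irreducible f) (hk : 1 ≤ k) :
    ∃ (G : (Fin 8 → ℝ) →ₗ[ℝ] MvPolynomial (Fin 3) ℝ) (W : Submodule ℝ (Fin 8 → ℝ)),
      (∀ θ, (G θ).IsHomogeneous (k + 1)) ∧ 8 ≤ finrank ℝ W + (zeros q f).ncard ∧
      finrank ℝ ((Submodule.span ℝ {f}).comap G) ≤ (4 - k).choose 2 ∧
      (∀ θ ∈ W, zeros q f ⊆ zeros q (G θ)) ∧
      ∀ᶠ θ in 𝓝 0, θ ∈ W → f + G θ ∈ HV (interior (cone q)) := by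
  classical
  obtain ⟨e, he⟩ := id hne
  obtain ⟨P⟩ := exists_pen hd (hf.2 e he)
  obtain ⟨G, Cb, N, η, K, S, a1, a2, a3, a4, a5, a6, a7, a8, a9⟩ := P.family (hf.2 e he).1
  obtain ⟨C, hC0, hC⟩ := P.near he hf fun j l => sum_ne hq hne hf hd hi hk
  let L : (Fin 8 → ℝ) →ₗ[ℝ] (zeros q f → ℝ) := LinearMap.pi fun j => evl (q j) ∘ₗ Cb
  have hL : ∀ θ ∈ LinearMap.ker L, ∀ j ∈ zeros q f, cub θ (P.Z (q j)) = 0 := fun θ hθ j hj => by
    simpa [L, evl_apply, a3] using congrFun hθ ⟨j, hj⟩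
  refine ⟨G, LinearMap.ker L, a1, ?_, ?_, fun θ hθ j hj => ?_, ?_⟩
  · simpa [Set.ncard_eq_toFinset_card'] using finrank_ker_ge L
  · obtain ⟨v, hv⟩ := mult_span hd hi.ne_zero hk
    have hinj : Function.Injective Cb := (injective_iff_map_eq_zero _).2 fun θ h => cub_inj fun z => by
      obtain ⟨x, rfl⟩ := LinearMap.injective_iff_surjective.1 P.inj z
      rw [← a3, h, map_zero]
    have := Module.Finite.span_of_finite ℝ (Set.finite_range v)
    refine (LinearMap.finrank_le_finrank_of_injective (f := Cb.restrict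
      (q := Submodule.span ℝ (Set.range v)) fun θ hθ => hv _ (a2 θ) ?_) fun x y h =>
        Subtype.ext (hinj (congrArg Subtype.val h))).trans
          (by simpa [Set.finrank] using finrank_range_le_card (R := ℝ) v)
    obtain ⟨c, hc⟩ := Submodule.mem_span_singleton.1 hθ
    have h1 : f ∣ Cb θ * N := by
      have := dvd_sub (Dvd.dvd.mul_left (hc ▸ dvd_smul_of_dvd c dvd_rfl : f ∣ G θ) η) (a7 θ)
      simpa using this
    refine (hi.prime.dvd_or_dvd h1).resolve_right ?_
    rintro ⟨h, rfl⟩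
    rcases quot_hom hd hi.ne_zero a5 with rfl | ⟨b, -, hb⟩
    · simp at a4
    · omega
  · obtain ⟨h, hh⟩ := a7 θ
    have := congrArg (MvPolynomial.eval (q j)) hh
    have h0 : MvPolynomial.eval (q j) f = 0 := hj
    simp only [map_sub, map_mul, a3, a6, hL θ hθ j hj, h0, zero_mul, sub_zero] at this
    refine (mul_eq_zero.1 this).resolve_left (eta_pos fun h1 => ?_).ne'
    have h2 : q j = 0 := P.inj (by simpa using h1)
    obtain ⟨l, hl⟩ : ∃ l, l ≠ j := by
      by_contra h3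
      push Not at h3
      obtain ⟨s, -, hs⟩ := interior_subset he
      exact P.ne (hs.trans (Finset.sum_eq_zero fun r _ => by rw [h3 r, h2, smul_zero]))
    exact (hq hl).ne_zero 1 h2
  · let B := ‖LinearMap.toContinuousLinearMap P.Z‖
    have hc : Continuous fun θ : Fin 8 → ℝ => K * ‖θ‖ + (90 * ‖θ‖ + 90 * ‖θ‖ * (B * C)) * S := by
      fun_prop
    filter_upwards [(hc.continuousAt (x := 0)).eventually_lt_const (show _ < (1 : ℝ) by simp)]
      with θ hθ hW
    obtain ⟨κ, b1, b2⟩ := a9 θ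
    refine P.small convex_int (isCone_int hne) he hf hd (a1 θ)
      (R := fun x => cub θ (P.Z x) / eta (P.Z x)) (L := 90 * ‖θ‖) (C := 90 * ‖θ‖ * (B * C))
      (by positivity) (by positivity) a8 (fun x s t => (lip_cub θ _ _).trans_eq ?_)
      (fun x hx l hl => ?_) b2 (by linarith)
    · rw [← map_sub, (by module : x - s • e - (x - t • e) = (t - s) • e), map_smul, P.Ze, norm_smul,
        Real.norm_eq_abs, abs_sub_comm, (by simp [Pi.norm_def, Fin.univ_succ] :
          ‖(![1, 0, 0] : Fin 3 → ℝ)‖ = 1), mul_one]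
    · obtain ⟨j, s, h1, h2⟩ := hC x hx l hl
      have h3 : cub θ (P.Z (s • q j)) = 0 := by
        rcases h1 with rfl | h1
        · simp [cub]
        · rw [← a3, eval_scale (a2 θ), a3, hL θ hW j h1, mul_zero]
      have h4 := lip_cub θ (P.Z x) (P.Z (s • q j))
      rw [h3, zero_div, sub_zero, ← map_sub] at h4
      have h5 := (LinearMap.toContinuousLinearMap P.Z).le_opNorm (x - s • q j)
      refine h4.trans ?_
      rw [mul_assoc (90 * ‖θ‖), mul_assoc B]
      exact mul_le_mul_of_nonneg_left (h5.trans (mul_le_mul_of_nonneg_left h2 (norm_nonneg _)))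
        (by positivity)

theorem flat_big (hq : Pairwise fun j l => LinearIndependent ℝ ![q j, q l])
    (hne : (interior (cone q)).Nonempty) (hf : f ∈ HV (interior (cone q)))
    (hd : f.IsHomogeneous (k + 1)) (hi : Irreducible f) (hk : 1 ≤ k)
    (h : (zeros q f).ncard + (4 - k).choose 2 ≤ 6) : Flat (interior (cone q)) f := by
  obtain ⟨G, W, a1, a2, a3, -, a5⟩ := directions hq hne hf hd hi hk
  obtain ⟨x, hx, y, hy, hxy⟩ := exists_two G hi.ne_zero W (by omega)
  refine ⟨_, G x, G y, hd, a1 x, a1 y, hxy, ?_⟩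
  have ht : Tendsto (fun p : ℝ × ℝ => p.1 • x + p.2 • y) (𝓝 0) (𝓝 0) :=
    Continuous.tendsto' (by fun_prop) _ _ (by simp)
  filter_upwards [ht.eventually a5] with p hp
  simpa using hp (W.add_mem (W.smul_mem _ hx) (W.smul_mem _ hy))

end Pool.Agent.MP_3d209c_an.H45
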