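import Pool.Agent.MP_3d209c_an.H45.Var

/-! Reduction of the preserver problem for an open convex cone to the polynomials that are not
centres of flat discs. -/

namespace Pool.Agent.MP_3d209c_an.H45

open Filter Topology Pool.Agent.MP_3d209c_an.H71 Pool.Agent.MP_3d209c_an.H61

variable {n : ℕ} {U : Set (Fin n → ℝ)}

/-- `f` is the centre of a flat projective disc inside the hyperbolic class of `U`. -/
def Flat (U : Set (Fin n → ℝ)) (f : MvPolynomial (Fin n) ℝ) : Prop :=
  ∃ (d : ℕ) (g h : MvPolynomial (Fin n) ℝ), f.IsHomogeneous d ∧ g.IsHomogeneous d ∧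
    h.IsHomogeneous d ∧ LinearIndependent ℝ ![f, g, h] ∧
    ∀ᶠ p : ℝ × ℝ in 𝓝 0, f + (p.1 • g + p.2 • h) ∈ HV U

theorem add_mem_cone (hc : Convex ℝ U) (hU : IsCone U) {x y : Fin n → ℝ} (hx : x ∈ U) (hy : y ∈ U)
    {t : ℝ} (ht : 0 ≤ t) : x + t • y ∈ U := by
  have h1 : 0 < 1 + t := by linarith
  have := hU.2 _ (hc hx hy (a := 1 / (1 + t)) (b := t / (1 + t)) (by positivity) (by positivity)
    (by field_simp)) (1 + t) h1
  rwa [smul_add, smul_smul, smul_smul, mul_div_cancel₀ _ h1.ne', mul_div_cancel₀ _ h1.ne',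
    one_smul] at this

theorem factor_cx {f : MvPolynomial (Fin n) ℝ} {d : ℕ} (hd : f.IsHomogeneous d)
    {e : Fin n → ℝ} (hf : Hyp e f) (α : Fin n → ℝ) : ∃ ρ : Fin d → ℝ, ∀ z : ℂ,
      MvPolynomial.aeval (fun i => (α i : ℂ) + z * e i) f
        = (MvPolynomial.eval e f : ℝ) * ∏ i, (z + (ρ i : ℂ)) := by
  obtain ⟨ρ, hρ⟩ := factor_plane hd hf α
  have : pl (fun i => (α i : ℂ)) (fun i => (e i : ℂ)) f = Polynomial.C
      ((MvPolynomial.eval e f : ℝ) : ℂ) * ∏ i, (Polynomial.X + Polynomial.C (ρ i : ℂ)) :=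
    eq_of_cofinite (.of_forall fun s => by
      have := hρ s 1
      simp only [one_smul, mul_one] at this
      rw [eval_pl, Polynomial.eval_mul, Polynomial.eval_prod]
      simp only [Polynomial.eval_C, Polynomial.eval_add, Polynomial.eval_X]
      norm_cast
      rw [← this, ← aeval_ofReal]
      congr 2
      ext i
      simp [add_comm])
  refine ⟨ρ, fun z => ?_⟩
  rw [← eval_pl, this]
  simp [Polynomial.eval_prod]

theorem compact_src (hU : IsOpen U) (hc : Convex ℝ U) (hcone : IsCone U) {e0 : Fin n → ℝ}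
    (he0 : e0 ∈ U) {d N : ℕ} (P : (Fin N → ℝ) →ₗ[ℝ] MvPolynomial (Fin n) ℝ)
    (hP : Function.Injective P) (hd : ∀ c, (P c).IsHomogeneous d) :
    IsCompact {c | P c ∈ HV U ∧ MvPolynomial.eval e0 (P c) = 1} := by
  let J : (Fin N → ℝ) →ₗ[ℝ] ((Fin n → ℝ) → ℝ) := LinearMap.pi fun x => evl x ∘ₗ P
  have hJ : Topology.IsClosedEmbedding J := J.isClosedEmbedding_of_injective
    (LinearMap.ker_eq_bot'.2 fun c hc => hP (MvPolynomial.funext fun x => by
      simpa [J, evl_apply] using congrFun hc x))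
  have hev : ∀ x, Continuous fun c => MvPolynomial.eval x (P c) := fun x => by
    simpa [← evl_apply, Function.comp_def] using (evl x ∘ₗ P).continuous_of_finiteDimensional
  have hb : ∀ x : Fin n → ℝ, ∃ b : ℝ, ∀ g ∈ HV U, g.IsHomogeneous d →
      MvPolynomial.eval e0 g = 1 → |MvPolynomial.eval x g| ≤ b := fun x => by
    obtain ⟨r, hr⟩ := bounded_roots (k := d) hU he0 (x - e0)
    obtain ⟨b, hb⟩ := (isCompact_closedBall (0 : Fin d → ℝ) r).exists_bound_of_continuousOn
      (f := fun ρ => ∏ i, (1 + (ρ i : ℂ) * 1)) (by fun_prop)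
    refine ⟨b, fun g hg h1 h2 => ?_⟩
    obtain ⟨ρ, h3, h4⟩ := hr g (Or.inl hg) h1
    have := h4 1
    simp only [one_mul, Pi.sub_apply, Complex.ofReal_sub, add_sub_cancel, aeval_ofReal, h2,
      Complex.ofReal_one] at this
    have h5 := hb ρ h3
    rwa [← this, Complex.norm_real] at h5
  have hm : ∀ e ∈ U, ∃ m : ℝ, 0 < m ∧ ∀ g ∈ HV U, g.IsHomogeneous d →
      MvPolynomial.eval e0 g = 1 → m ≤ MvPolynomial.eval e g := fun e he => by
    have hc' : Continuous fun s : ℝ => e - s • e0 := by fun_prop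
    obtain ⟨δ, hδ, hδ0⟩ := ((((hc'.continuousAt (x := 0)).eventually
      (hU.mem_nhds (by simpa using he))).filter_mono nhdsWithin_le_nhds).and
        (self_mem_nhdsWithin (s := Set.Ioi (0 : ℝ)))).exists
    have hδ1 : 0 < δ := hδ0
    refine ⟨δ ^ d, by positivity, fun g hg h1 h2 => ?_⟩
    obtain ⟨ρ, hρ⟩ := factor_plane h1 (hg.2 e0 he0) e
    have h3 : ∀ i, δ ≤ ρ i := fun i => not_lt.1 fun hi => by
      refine (hg.2 _ (add_mem_cone hc hcone hδ he0 (sub_pos.2 hi).le)).1 ?_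
      rw [(by module : e - δ • e0 + (δ - ρ i) • e0 = (-ρ i) • e0 + (1 : ℝ) • e), hρ,
        Finset.prod_eq_zero (Finset.mem_univ i) (by ring), mul_zero]
    have h4 := hρ 0 1
    simp only [zero_smul, one_smul, zero_add, mul_one, h2, one_mul] at h4
    rw [h4]
    simpa using Finset.prod_le_prod (s := Finset.univ) (f := fun _ : Fin d => δ)
      (fun _ _ => hδ1.le) fun i _ => h3 i
  choose b hb using hb
  choose! m hm0 hm using hm
  refine IsCompact.of_isClosed_subset (hJ.isCompact_preimage (isCompact_univ_pi fun x =>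
    isCompact_Icc (a := -b x) (b := b x))) ?_ fun c hc x _ => by
      simpa [J, evl_apply, abs_le] using hb x _ hc.1 (hd c) hc.2
  have : {c | P c ∈ HV U ∧ MvPolynomial.eval e0 (P c) = 1} = {c | MvPolynomial.eval e0 (P c) = 1} ∩
      ⋂ e ∈ U, ({c | m e ≤ MvPolynomial.eval e (P c)} ∩ ⋂ (α : Fin n → ℝ) (z : ℂ),
        {c | |z.im| ^ d * m e ≤ ‖MvPolynomial.aeval (fun i => (α i : ℂ) + z * e i) (P c)‖}) := by
    ext c
    simp only [Set.mem_ofPred_eq, Set.mem_inter_iff, Set.mem_iInter]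
    constructor
    · refine fun h => ⟨h.2, fun e he => ⟨hm e he _ h.1 (hd c) h.2, fun α z => ?_⟩⟩
      obtain ⟨ρ, hρ⟩ := factor_cx (hd c) (h.1.2 e he) α
      rw [hρ, norm_mul, norm_prod, Complex.norm_real, mul_comm]
      refine mul_le_mul ((hm e he _ h.1 (hd c) h.2).trans (le_abs_self _)) ?_ (by positivity)
        (abs_nonneg _)
      simpa using Finset.prod_le_prod (s := Finset.univ) (f := fun _ : Fin d => |z.im|)
        (g := fun i => ‖z + (ρ i : ℂ)‖) (fun _ _ => abs_nonneg _) fun i _ => by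
          simpa using Complex.abs_im_le_norm (z + ρ i)
    · refine fun h => ⟨⟨⟨d, hd c⟩, fun e he => ⟨((hm0 e he).trans_le (h.2 e he).1).ne',
        fun α z hz => ?_⟩⟩, h.1⟩
      have := (h.2 e he).2 α z
      rw [hz, norm_zero] at this
      by_contra h0
      exact absurd this (not_le.2 (mul_pos (pow_pos (abs_pos.2 h0) _) (hm0 e he)))
  rw [this]
  refine (isClosed_eq (hev _) continuous_const).inter (isClosed_biInter fun e _ =>
    (isClosed_le continuous_const (hev _)).inter (isClosed_iInter fun α => isClosed_iInter fun z =>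
      isClosed_le continuous_const (Continuous.norm ?_)))
  exact ((MvPolynomial.aeval fun i => (α i : ℂ) + z * e i).toLinearMap ∘ₗ P
    ).continuous_of_finiteDimensional

theorem smul_memH {g : MvPolynomial (Fin n) ℝ} (hne : U.Nonempty) (hg : g ∈ HV U) {c : ℝ}
    (hc : c ≠ 0) : c • g ∈ HV U := by
  obtain ⟨e, he⟩ := hne
  refine (smul_mem (Or.inl hg) c).resolve_right fun h => (hg.2 e he).1 ?_
  rw [(smul_eq_zero.1 (Set.mem_singleton_iff.1 h)).resolve_left hc, map_zero]

theorem reduction (hU : IsOpen U) (hc : Convex ℝ U) (hcone : IsCone U) {n' : ℕ}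
    {V : Set (Fin n' → ℝ)}
    (T : MvPolynomial (Fin n) ℝ →ₗ[ℝ] MvPolynomial (Fin n') ℝ)
    (h : ∀ f ∈ HV U, ¬Flat U f → T f ∈ HV V ∪ {0}) : ∀ f ∈ HV U, T f ∈ HV V ∪ {0} := by
  intro f hf
  obtain ⟨e0, he0⟩ := hcone.1
  obtain ⟨d, hd⟩ := hf.1
  let W := MvPolynomial.homogeneousSubmodule (Fin n) ℝ d
  have : Module.Finite ℝ W := Module.Finite.iff_fg.2 (MvPolynomial.homogeneousSubmodule_fg _ _ _)
  let P : (Fin (Module.finrank ℝ W) → ℝ) →ₗ[ℝ] MvPolynomial (Fin n) ℝ :=
    W.subtype ∘ₗ (Module.finBasis ℝ W).equivFun.symm.toLinearMap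
  have hP : Function.Injective P := W.injective_subtype.comp (LinearEquiv.injective _)
  have hPd : ∀ c, (P c).IsHomogeneous d := fun c => ((Module.finBasis ℝ W).equivFun.symm c).2
  have hS : ∀ g : MvPolynomial (Fin n) ℝ, g.IsHomogeneous d → ∃ c, P c = g := fun g hg =>
    ⟨(Module.finBasis ℝ W).equivFun ⟨g, hg⟩, by simp [P]⟩
  have h0 := (hf.2 e0 he0).1
  obtain ⟨c, hc'⟩ := hS ((MvPolynomial.eval e0 f)⁻¹ • f) (W.smul_mem _ hd)
  have key := target (compact_src hU hc hcone he0 P hP hPd) (T ∘ₗ P) (fun c hc hD =>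
    h _ hc.1 fun ⟨d', g1, g2, h1, h2, h3, hi, hev⟩ => hD ?_) c
    ⟨hc' ▸ smul_memH hcone.1 hf (inv_ne_zero h0), by rw [hc', MvPolynomial.smul_eval]; field_simp⟩
  · have := smul_mem key (MvPolynomial.eval e0 f)
    rwa [LinearMap.comp_apply, hc', map_smul, smul_smul, mul_inv_cancel₀ h0, one_smul] at this
  have hne : P c ≠ 0 := hi.ne_zero 0
  obtain rfl : d' = d := h1.inj_right (hPd c) hne
  obtain ⟨c1, rfl⟩ := hS _ h2
  obtain ⟨c2, rfl⟩ := hS _ h3
  set a := MvPolynomial.eval e0 (P c1) with ha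
  set b := MvPolynomial.eval e0 (P c2) with hb
  refine ⟨c1 - a • c, c2 - b • c, LinearIndependent.pair_iff.2 fun s t hst => ?_, ?_⟩
  · have := Fintype.linearIndependent_iff.1 hi ![-(s * a + t * b), s, t] (by
      have := congrArg P hst
      simp only [map_add, map_smul, map_sub, map_zero] at this
      simp only [Fin.sum_univ_three, Matrix.cons_val]
      rw [← this]
      module)
    exact ⟨this 1, this 2⟩
  · have h4 : ∀ᶠ p : ℝ × ℝ in 𝓝 0, 1 - (p.1 * a + p.2 * b) ≠ 0 :=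
      ContinuousAt.eventually_ne (by fun_prop) (by simp)
    have h5 : Tendsto (fun p : ℝ × ℝ => (p.1 / (1 - (p.1 * a + p.2 * b)),
        p.2 / (1 - (p.1 * a + p.2 * b)))) (𝓝 0) (𝓝 0) := by
      have : ContinuousAt (fun p : ℝ × ℝ => (p.1 / (1 - (p.1 * a + p.2 * b)),
        p.2 / (1 - (p.1 * a + p.2 * b)))) 0 := by fun_prop (disch := simp)
      simpa [ContinuousAt, Prod.mk_zero_zero] using this
    filter_upwards [h4, h5.eventually hev] with p h6 h7
    constructor
    · convert smul_memH hcone.1 h7 h6 using 1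
      simp only [map_add, map_smul, map_sub, smul_add, smul_smul, mul_div_cancel₀ _ h6]
      module
    · simp only [map_add, map_smul, map_sub, MvPolynomial.smul_eval, hc.2, ← ha, ← hb]
      ring

end Pool.Agent.MP_3d209c_an.H45
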