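import Pool.Agent.MP_3d209c_an.H45.Alg

/-! Small members of the cubic family stay hyperbolic. -/

namespace Pool.Agent.MP_3d209c_an.H45

open Filter Topology Matrix Pool.Agent.MP_3d209c_an.H71 Pool.Agent.MP_3d209c_an.H61 Module
open scoped ComplexOrder

variable {e : Fin 3 → ℝ} {f : MvPolynomial (Fin 3) ℝ} {k : ℕ} {V : Set (Fin 3 → ℝ)}

theorem Pen.small (P : Pen e f k) (hc : Convex ℝ V) (hcone : IsCone V) (he : e ∈ V)
    (hf : f ∈ HV V) (hd : f.IsHomogeneous (k + 1)) {g : MvPolynomial (Fin 3) ℝ}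
    (hg : g.IsHomogeneous (k + 1)) {R : (Fin 3 → ℝ) → ℝ} {L C S κ : ℝ} (hL0 : 0 ≤ L) (hC0 : 0 ≤ C)
    (hS : 0 ≤ S) (hL : ∀ (x : Fin 3 → ℝ) (s t : ℝ), |R (x - s • e) - R (x - t • e)| ≤ L * |s - t|)
    (hC : ∀ x ∈ V, ∀ l, (∀ τ, (P.M (x - τ • e)).PosSemidef → τ ≤ l) → |R x| ≤ C * l)
    (h : ∀ α : Fin 3 → ℝ, ∃ lam ρ : Fin (k + 1) → ℝ, (∀ i, 0 ≤ ρ i) ∧ ∑ i, ρ i = S ∧
      (∀ t : ℝ, MvPolynomial.eval (α + t • e) f = MvPolynomial.eval e f * ∏ i, (t + lam i)) ∧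
      (∀ t : ℝ, (∀ i, t + lam i ≠ 0) → MvPolynomial.eval (α + t • e) g
        = MvPolynomial.eval (α + t • e) f * (κ + ∑ i, ρ i * R (α - lam i • e) / (t + lam i))) ∧
      ∀ i τ, (P.M (α - τ • e)).PosSemidef → τ ≤ lam i)
    (hs : |κ| + (L + C) * S < 1) : f + g ∈ HV V := by
  have h1 : ∀ x ∈ V, MvPolynomial.eval x (f + g) ≠ 0 := fun x hx => by
    obtain ⟨lam, ρ, a1, a2, a3, a4, a5⟩ := h x
    have b0 : ∀ i, 0 < lam i := fun i => not_le.1 fun hi =>
      (hf.2 _ (add_mem_cone hc hcone hx he (neg_nonneg.2 hi))).1 (by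
        rw [a3, Finset.prod_eq_zero (Finset.mem_univ i) (neg_add_cancel _), mul_zero])
    have b1 := a4 0 fun i => by simpa using (b0 i).ne'
    simp only [zero_smul, add_zero, zero_add] at b1
    have b2 : |∑ i, ρ i * R (x - lam i • e) / lam i| ≤ (L + C) * S := by
      rw [← a2, Finset.mul_sum]
      refine (Finset.abs_sum_le_sum_abs _ _).trans (Finset.sum_le_sum fun i _ => ?_)
      rw [abs_div, abs_mul, abs_of_nonneg (a1 i), abs_of_pos (b0 i), div_le_iff₀ (b0 i)]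
      have c1 := hL x (lam i) 0
      simp only [zero_smul, sub_zero, abs_of_pos (b0 i)] at c1
      have c2 := abs_sub_abs_le_abs_sub (R (x - lam i • e)) (R x)
      have c3 : |R (x - lam i • e)| ≤ (L + C) * lam i := by linarith [hC x hx _ (a5 i)]
      nlinarith [mul_le_mul_of_nonneg_left c3 (a1 i)]
    rw [map_add, b1, ← mul_one_add]
    refine mul_ne_zero (hf.2 x hx).1 (ne_of_gt ?_)
    linarith [neg_abs_le κ, (abs_le.1 b2).1]
  have h2 : Hyp e (f + g) := ⟨h1 e he, fun α z hz => by_contra fun hz' => by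
    obtain ⟨lam, ρ, a1, a2, a3, a4, -⟩ := h α
    let r : Fin (k + 1) → ℝ := fun i => ρ i * R (α - lam i • e)
    let p : Polynomial ℂ := Polynomial.C ((MvPolynomial.eval e f : ℝ) : ℂ) *
      (Polynomial.C (1 + (κ : ℂ)) * ∏ i, (Polynomial.X + Polynomial.C (lam i : ℂ)) +
        ∑ i, Polynomial.C (r i : ℂ) *
          ∏ j ∈ Finset.univ.erase i, (Polynomial.X + Polynomial.C (lam j : ℂ)))
    have hp : ∀ y : ℂ, (∀ i, y + lam i ≠ 0) → p.eval y = (MvPolynomial.eval e f : ℝ) *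
        ((∏ i, (y + lam i)) * (1 + (κ : ℂ) + ∑ i, (r i : ℂ) / (y + lam i))) := fun y hy => by
      simp only [p, Polynomial.eval_mul, Polynomial.eval_add, Polynomial.eval_C, Polynomial.eval_X,
        Polynomial.eval_prod, Polynomial.eval_finsetSum]
      rw [mul_add (∏ i, (y + (lam i : ℂ))), Finset.mul_sum, mul_comm (1 + (κ : ℂ))]
      congr 2
      refine Finset.sum_congr rfl fun i _ => ?_
      rw [← Finset.mul_prod_erase _ _ (Finset.mem_univ i)]
      have := hy i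
      field_simp
    have e1 : pl (fun i => (α i : ℂ)) (fun i => (e i : ℂ)) (f + g) = p := eq_of_cofinite (by
      have : ∀ᶠ t : ℝ in cofinite, ∀ i, t + lam i ≠ 0 := eventually_all.2 fun i => by
        simp [add_eq_zero_iff_eq_neg]
      filter_upwards [this] with t ht
      have e2 : (fun i => (α i : ℂ) + t * e i) = fun i => (((α + t • e) i : ℝ) : ℂ) := by
        ext; simp
      rw [hp t fun i => by exact_mod_cast ht i, eval_pl, e2, aeval_ofReal, map_add, a4 t ht, a3]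
      simp only [r]
      push_cast
      ring)
    have hy : ∀ i, z + lam i ≠ 0 := fun i h0 => hz' (by simpa using congrArg Complex.im h0)
    rw [← eval_pl, e1, hp z hy] at hz
    refine mul_ne_zero (Complex.ofReal_ne_zero.2 (hf.2 e he).1) (mul_ne_zero
      (Finset.prod_ne_zero_iff.2 fun i _ => hy i) ?_) hz
    exact no_root lam ρ _ a1 hL0 (fun i j => hL α _ _)
      (by rw [a2]; nlinarith [mul_nonneg hC0 hS]) hz'⟩
  exact ⟨⟨_, hd.add hg⟩, fun x hx =>
    hyp_Gc (hd.add hg) h2 (subset_Gc (hd.add hg) h2 hc.isPreconnected he h1 hx)⟩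

theorem Pen.no_common (P : Pen e f k) (hi : Irreducible f)
    (hk : 1 ≤ k) {u : Fin (k + 1) → ℂ} (hu : u ≠ 0) {w : Fin 3 → ℝ}
    (h : ∀ x, P.M x *ᵥ u = ((w ⬝ᵥ x : ℝ) : ℂ) • u) : False := by
  obtain ⟨g, hg, hg'⟩ := adj_poly P.M u u
  have h1 := (Complex.pos_iff.1 (dotProduct_star_self_pos_iff.2 hu)).1
  set a := (star u ⬝ᵥ u).re
  have h2 : f = lin w * (MvPolynomial.C (MvPolynomial.eval e f / a) * g) :=
    MvPolynomial.funext fun x => by
      have := congrArg (fun v => (((MvPolynomial.eval e f : ℝ) : ℂ) *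
        (star u ⬝ᵥ (P.M x).adjugate *ᵥ v)).re) (h x)
      simp only [mulVec_mulVec, adjugate_mul, smul_mulVec, one_mulVec, mulVec_smul, dotProduct_smul,
        smul_eq_mul, ← mul_assoc, ← P.det, Complex.re_ofReal_mul, ← Complex.ofReal_mul, ← hg'] at this
      simp only [map_mul, eval_lin, MvPolynomial.eval_C]
      field_simp
      linear_combination this
  have h0 : ∀ {p : MvPolynomial (Fin 3) ℝ} {j : ℕ}, p.IsHomogeneous j → 1 ≤ j → ¬IsUnit p := by
    intro p j hp hj hunit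
    refine (hunit.map (MvPolynomial.eval (0 : Fin 3 → ℝ))).ne_zero ?_
    simpa [zero_pow (by omega : j ≠ 0)] using eval_scale hp 0 0
  exact (hi.isUnit_or_isUnit h2).elim (h0 (lin_homogeneous w) le_rfl) (h0 (hg.C_mul _) hk)

theorem Pen.common (P : Pen e f k) {p q : Fin 3 → ℝ} (hpq : LinearIndependent ℝ ![p, q])
    {u : Fin (k + 1) → ℂ} (hu : u ≠ 0) (hp : P.M p *ᵥ u = 0) (hq : P.M q *ᵥ u = 0) :
    ∃ w : Fin 3 → ℝ, ∀ x, P.M x *ᵥ u = ((w ⬝ᵥ x : ℝ) : ℂ) • u := by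
  have h1 : ∀ x, ((p ⨯₃ q) ⬝ᵥ e) • P.M x *ᵥ u = ((p ⨯₃ q) ⬝ᵥ x) • u := fun x => by
    have : ((p ⨯₃ q) ⬝ᵥ e) • x = ((p ⨯₃ q) ⬝ᵥ x) • e +
        (((q ⨯₃ e) ⬝ᵥ x) • p + ((e ⨯₃ p) ⬝ᵥ x) • q) := by
      ext i
      fin_cases i <;> simp [cross_apply, vecHead, vecTail] <;> ring
    rw [← smul_mulVec, ← map_smul, this]
    simp only [map_add, map_smul, add_mulVec, smul_mulVec, hp, hq, P.one, one_mulVec, smul_zero,
      add_zero]
  have h2 : (p ⨯₃ q) ⬝ᵥ e ≠ 0 := fun h => crossProduct_ne_zero_iff_linearIndependent.2 hpq (by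
    have := h1 (p ⨯₃ q)
    rw [h, zero_smul] at this
    exact dotProduct_self_eq_zero.1 ((smul_eq_zero.1 this.symm).resolve_right hu))
  refine ⟨((p ⨯₃ q) ⬝ᵥ e)⁻¹ • (p ⨯₃ q), fun x => ?_⟩
  rw [Complex.coe_smul, smul_dotProduct, smul_eq_mul, mul_smul, ← h1, inv_smul_smul₀ h2]

theorem Pen.psd (P : Pen e f k) {x : Fin 3 → ℝ}
    (h : ∀ t : ℝ, 0 < t → MvPolynomial.eval (x + t • e) f ≠ 0) : (P.M x).PosSemidef :=
  psd_of_det (P.herm x) fun t ht h0 => h t ht (Complex.ofReal_eq_zero.1 (by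
    rw [P.det, P.shift, add_comm (P.M x), h0, mul_zero]))

theorem Pen.margin (P : Pen e f k) {y : Fin 3 → ℝ} (h1 : (P.M y).PosSemidef)
    (h2 : MvPolynomial.eval y f ≠ 0) : ∀ᶠ μ : ℝ in 𝓝 0, (P.M (y - μ • e)).PosSemidef := by
  obtain ⟨lam, u, a1, a2, -, a4⟩ := spec (P.herm y)
  have b : ∀ i, 0 < lam i := fun i => by
    have := h1.dotProduct_mulVec_nonneg (u i)
    rw [a1, dotProduct_smul, a2, smul_eq_mul, mul_one, Complex.zero_le_real] at this
    refine this.lt_of_ne fun h0 => h2 (Complex.ofReal_eq_zero.1 ?_)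
    have := a4 0
    rw [zero_smul, add_zero, Finset.prod_eq_zero (Finset.mem_univ i) (by simp [← h0])] at this
    rw [P.det, this, mul_zero]
  filter_upwards [eventually_all.2 fun i => eventually_lt_nhds (b i)] with μ hμ
  refine psd_of_det (P.herm _) fun t ht => ?_
  rw [add_comm _ (P.M _), ← P.shift, (by module : y - μ • e + t • e = y + (t - μ) • e), P.shift, a4]
  exact Finset.prod_ne_zero_iff.2 fun i _ => by
    exact_mod_cast (by linarith [hμ i] : 0 < t - μ + lam i).ne'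

end Pool.Agent.MP_3d209c_an.H45
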