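import Pool.Agent.MP_3d209c_an.H61.Rep

/-! A compact family of polynomials is mapped into the hyperbolic class of a cone as soon as
its members that are not centres of flat two-dimensional discs are. -/

namespace Pool.Agent.MP_3d209c_an.H45

open Filter Topology Pool.Agent.MP_3d209c_an.H71 Pool.Agent.MP_3d209c_an.H61

variable {E : Type*} [NormedAddCommGroup E] [NormedSpace ℝ E] {K : Set E}

/-- `f` is the centre of a flat two-dimensional disc inside `K`. -/
def Disc (K : Set E) (f : E) : Prop :=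
  ∃ g h : E, LinearIndependent ℝ ![g, h] ∧ ∀ᶠ p : ℝ × ℝ in 𝓝 0, f + (p.1 • g + p.2 • h) ∈ K

theorem Disc.dir {f : E} (hf : Disc K f) (L : E →ₗ[ℝ] ℝ) :
    ∃ g, g ≠ 0 ∧ L g = 0 ∧ ∀ᶠ t : ℝ in 𝓝 0, f + t • g ∈ K := by
  obtain ⟨g, h, hi, hK⟩ := hf
  rw [LinearIndependent.pair_iff] at hi
  obtain ⟨a, b, hab, h0⟩ : ∃ a b : ℝ, ¬(a = 0 ∧ b = 0) ∧ a * L g + b * L h = 0 := by
    by_cases hg : L g = 0
    · exact ⟨1, 0, by simp, by simp [hg]⟩
    · exact ⟨-L h, L g, fun h => hg h.2, by ring⟩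
  refine ⟨a • g + b • h, fun h1 => hab (hi a b h1), by simpa using h0, ?_⟩
  have ht : Tendsto (fun t : ℝ => (t * a, t * b)) (𝓝 0) (𝓝 0) :=
    Continuous.tendsto' (by fun_prop) _ _ (by simp)
  filter_upwards [ht.eventually hK] with t ht
  simpa only [smul_add, smul_smul] using ht

theorem maxP (hK : IsCompact K) {G : E → ℝ} (hG : ContinuousOn G K)
    (h : ∀ f ∈ K, 0 < G f → ∃ g, g ≠ 0 ∧ (∀ᶠ t : ℝ in 𝓝 0, f + t • g ∈ K) ∧
      ∀ᶠ t : ℝ in 𝓝 0, 2 * G f ≤ G (f + t • g) + G (f - t • g)) : ∀ f ∈ K, G f ≤ 0 := by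
  intro f0 hf0
  by_contra hpos
  obtain ⟨f1, hf1, hmax⟩ := hK.exists_isMaxOn ⟨f0, hf0⟩ hG
  obtain ⟨x, ⟨hxK, hx1⟩, hx⟩ := (hK.of_isClosed_subset (hG.preimage_isClosed_of_isClosed hK.isClosed
    (isClosed_singleton (x := G f1))) Set.inter_subset_left).extremePoints_nonempty ⟨f1, hf1, rfl⟩
  have hx1' : G x = G f1 := hx1
  obtain ⟨g, hg, h1, h2⟩ := h x hxK (by have := hmax hf0; simp at this; linarith)
  have h3 : ∀ᶠ t : ℝ in 𝓝 0, x - t • g ∈ K := by
    have ht : Tendsto (fun t : ℝ => -t) (𝓝 0) (𝓝 0) := Continuous.tendsto' (by fun_prop) _ _ (by simp)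
    filter_upwards [ht.eventually h1] with t ht
    simpa only [neg_smul, ← sub_eq_add_neg] using ht
  obtain ⟨t, ⟨⟨a1, a2⟩, a3⟩, ht0⟩ :=
    ((((h1.and h2).and h3).filter_mono nhdsWithin_le_nhds).and
      (self_mem_nhdsWithin (s := ({0}ᶜ : Set ℝ)))).exists
  have b1 : G (x + t • g) ≤ G f1 := hmax a1
  have b2 : G (x - t • g) ≤ G f1 := hmax a3
  have := hx (x₁ := x + t • g) ⟨a1, by change G _ = _; linarith⟩ (x₂ := x - t • g)
    ⟨a3, by change G _ = _; linarith⟩ ⟨1 / 2, 1 / 2, by norm_num, by norm_num, by norm_num, by module⟩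
  exact smul_ne_zero ht0 hg (by simpa using this)

variable [FiniteDimensional ℝ E]

theorem zero_of (hK : IsCompact K) (ψ : E →ₗ[ℝ] ℂ) (C : E →ₗ[ℝ] ℝ)
    (h : ∀ f ∈ K, ¬Disc K f → C f = 0 → ψ f = 0) : ∀ f ∈ K, C f = 0 → ψ f = 0 := by
  have h1 := ψ.continuous_of_finiteDimensional
  intro f hf h0
  refine norm_le_zero_iff.1 (maxP (hK.inter_right (isClosed_eq C.continuous_of_finiteDimensional
    continuous_const : IsClosed {f | C f = 0})) (G := fun f => ‖ψ f‖) (by fun_prop)
    (fun f hf h0 => ?_) f ⟨hf, h0⟩)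
  have hC : C f = 0 := hf.2
  obtain ⟨g, hg, hL, ht⟩ := Disc.dir (by_contra fun hd => by simp [h f hf.1 hd hC] at h0) C
  refine ⟨g, hg, ht.mono fun t ht => ⟨ht, by simp [hC, hL]⟩, .of_forall fun t => ?_⟩
  have := norm_add_le (ψ (f + t • g)) (ψ (f - t • g))
  rw [← map_add, (by module : f + t • g + (f - t • g) = (2 : ℝ) • f), map_smul, norm_smul] at this
  simpa using this

theorem phase (hK : IsCompact K) (u v : E →ₗ[ℝ] ℂ) (h0 : ∀ f ∈ K, u f = 0 → v f = 0)
    (h : ∀ f ∈ K, ¬Disc K f → (v f * star (u f)).im ≤ 0) : ∀ f ∈ K, (v f * star (u f)).im ≤ 0 := by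
  have h1 := u.continuous_of_finiteDimensional
  have h2 := v.continuous_of_finiteDimensional
  have key := maxP hK (G := fun f => (v f * star (u f)).im / ‖u f‖) (fun f hf => by
    refine ContinuousAt.continuousWithinAt ?_
    by_cases hu : u f = 0
    · simp only [ContinuousAt, hu, norm_zero, div_zero]
      refine squeeze_zero_norm (a := fun x => ‖v x‖) (fun x => ?_)
        (h2.norm.tendsto' _ _ (by simp [h0 f hf hu]))
      rw [norm_div, norm_norm]
      refine div_le_of_le_mul₀ (norm_nonneg _) (norm_nonneg _) ?_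
      simpa using Complex.abs_im_le_norm (v x * star (u x))
    · fun_prop (disch := simpa using hu)) fun f hf hp => by
      have hu : u f ≠ 0 := fun hu => by simp [hu] at hp
      have hn := norm_pos_iff.2 hu
      obtain ⟨g, hg, hL, ht⟩ := Disc.dir (K := K) (f := f) (by_contra fun hd =>
        absurd hp (not_lt.2 (div_nonpos_of_nonpos_of_nonneg (h f hf hd) hn.le)))
        (Complex.imLm ∘ₗ LinearMap.mulLeft ℝ (u f)⁻¹ ∘ₗ u)
      refine ⟨g, hg, ht, ?_⟩
      set κ := ((u f)⁻¹ * u g).re with hκ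
      have e1 : u g = κ • u f := by
        have : (u f)⁻¹ * u g = (κ : ℂ) := Complex.ext (by simp [hκ]) (by simpa using hL)
        rw [Complex.real_smul, ← this]
        field_simp
      have e2 : ∀ t : ℝ, 0 < 1 + t * κ → (v (f + t • g) * star (u (f + t • g))).im / ‖u (f + t • g)‖
          = ((v f * star (u f)).im + t * (v g * star (u f)).im) / ‖u f‖ := fun t ht => by
        rw [(by rw [map_add, map_smul, e1]; module : u (f + t • g) = (1 + t * κ) • u f), norm_smul,
          Real.norm_of_nonneg ht.le, div_eq_div_iff (by positivity) hn.ne']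
        simp
        ring
      have hc : Continuous fun t : ℝ => |t * κ| := by fun_prop
      have hev : ∀ᶠ t : ℝ in 𝓝 0, |t * κ| < 1 :=
        (hc.continuousAt (x := 0)).eventually_lt_const (by simp)
      filter_upwards [hev] with t ht
      rw [sub_eq_add_neg, ← neg_smul, e2 t (by linarith [(abs_lt.1 ht).1]),
        e2 (-t) (by linarith [(abs_lt.1 ht).2])]
      exact le_of_eq (by ring)
  intro f hf
  by_cases hu : u f = 0
  · simp [hu]
  · exact (div_nonpos_iff.1 (key f hf)).elim (fun h => absurd h.2 (by simpa using hu)) (·.1)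

theorem prod_zero (hK : IsCompact K) (A B : E →ₗ[ℝ] ℝ)
    (h : ∀ f ∈ K, ¬Disc K f → A f * B f = 0) : ∀ f ∈ K, A f * B f = 0 := by
  have h1 := A.continuous_of_finiteDimensional
  have h2 := B.continuous_of_finiteDimensional
  intro f0 hf0
  by_contra hne
  obtain ⟨a, b⟩ := mul_ne_zero_iff.1 hne
  refine not_lt.2 (maxP hK (G := fun f => min (A f0 * A f) (B f0 * B f)) (by fun_prop)
    (fun f hf h0 => ?_) f0 hf0) (lt_min (mul_self_pos.2 a) (mul_self_pos.2 b))
  obtain ⟨g, hg, hL, ht⟩ := Disc.dir (K := K) (f := f) (by_contra fun hd => by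
    rcases mul_eq_zero.1 (h f hf hd) with h | h <;> simp [h] at h0) (A f0 • A - B f0 • B)
  refine ⟨g, hg, ht, .of_forall fun t => ?_⟩
  have e : A f0 * A g = B f0 * B g := by simpa [sub_eq_zero] using hL
  have e1 : ∀ s : ℝ, min (A f0 * A (f + s • g)) (B f0 * B (f + s • g))
      = min (A f0 * A f) (B f0 * B f) + s * (A f0 * A g) := fun s => by
    rw [← min_add_add_right]
    congr 1
    · simp; ring
    · rw [e]; simp; ring
  rw [sub_eq_add_neg, ← neg_smul, e1, e1]
  linarith

theorem bounded_roots {n k : ℕ} {V : Set (Fin n → ℝ)} (hV : IsOpen V) {e : Fin n → ℝ} (he : e ∈ V)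
    (α : Fin n → ℝ) : ∃ r : ℝ, ∀ g ∈ HV V ∪ {0}, g.IsHomogeneous k →
      ∃ ρ ∈ Metric.closedBall (0 : Fin k → ℝ) r, ∀ s : ℂ,
        MvPolynomial.aeval (fun i => (e i : ℂ) + s * α i) g
          = (MvPolynomial.eval e g : ℝ) * ∏ i, (1 + (ρ i : ℂ) * s) := by
  have hc : Continuous fun s : ℝ => e + s • α := by fun_prop
  obtain ⟨ε, hε, h⟩ := Metric.eventually_nhds_iff.1
    ((hc.continuousAt (x := 0)).eventually (hV.mem_nhds (by simpa using he)))
  refine ⟨ε⁻¹, fun g hg hk => ?_⟩
  have hgood := good_of_mem hg he α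
  rcases hg with hg | rfl
  swap
  · exact ⟨0, by simp [hε.le], by simp⟩
  set p := pl (fun i => (e i : ℂ)) (fun i => (α i : ℂ)) g with hp
  have hp0 : p.eval 0 = ((MvPolynomial.eval e g : ℝ) : ℂ) := by
    rw [hp, eval_pl]; simp only [zero_mul, add_zero, aeval_ofReal]
  have hp0' : p.eval 0 ≠ 0 := by rw [hp0]; exact_mod_cast (hg.2 e he).1
  obtain ⟨ρ, hρ⟩ := factor_univariate k p (natDegree_pl hk _ _) hp0' fun z hz => by
    rcases hgood with hg | hg
    · exact absurd (by rw [hg]; simp) hp0'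
    · by_contra h
      exact hg z (Or.inl h) hz
  rw [hp0] at hρ
  simp only [hp, eval_pl] at hρ
  refine ⟨ρ, ?_, hρ⟩
  rw [mem_closedBall_zero_iff, pi_norm_le_iff_of_nonneg (by positivity)]
  intro i
  by_contra hi
  have h1 : ε⁻¹ < |ρ i| := not_le.1 hi
  have h2 : 0 < |ρ i| := lt_trans (by positivity) h1
  have h3 : ρ i ≠ 0 := abs_pos.1 h2
  refine (hg.2 _ (h (y := -(ρ i)⁻¹) ?_)).1 (Complex.ofReal_eq_zero.1 ?_)
  · rw [dist_zero_right, norm_neg, norm_inv, Real.norm_eq_abs]
    exact inv_lt_of_inv_lt₀ hε h1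
  · rw [← aeval_ofReal]
    have := hρ ((-(ρ i)⁻¹ : ℝ) : ℂ)
    rw [Finset.prod_eq_zero (Finset.mem_univ i) (by
      have : (ρ i : ℂ) ≠ 0 := Complex.ofReal_ne_zero.2 h3
      push_cast; field_simp; ring), mul_zero] at this
    rw [← this]
    congr 2
    ext j
    simp

open Polynomial in
theorem good_step {m : ℕ} {p : ℂ[X]} (hp : p.natDegree ≤ m + 1) (hg : Good p) {s : ℂ}
    (hs : s.im ≠ 0) : (p = 0 ∨ (((m : ℝ) + 1) • p - X * derivative p).eval s ≠ 0) ∧
      ((s.im • derivative p).eval s * star ((((m : ℝ) + 1) • p - X * derivative p).eval s)).im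
        ≤ 0 := by
  rcases hg with rfl | hg
  · simp
  obtain ⟨ρ, hρ⟩ := factor_univariate (m + 1) p hp (hg 0 (Or.inr rfl)) fun z hz =>
    by_contra fun h => hg z (Or.inl h) hz
  have hne : ∀ i, 1 + (ρ i : ℂ) * s ≠ 0 := fun i h => hg s (Or.inl hs) (by
    rw [hρ, Finset.prod_eq_zero (Finset.mem_univ i) h, mul_zero])
  let w : Fin (m + 1) → ℂ := fun i => (1 + (ρ i : ℂ) * s)⁻¹
  have e0 : p = C (p.eval 0) * ∏ i, (1 + C (ρ i : ℂ) * X) :=
    Polynomial.funext fun z => by rw [hρ]; simp [eval_prod]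
  have e1 : (derivative p).eval s = p.eval s * ∑ i, ρ i * w i := by
    conv_lhs => rw [e0]
    rw [hρ s, derivative_C_mul, derivative_prod_finset, eval_mul, eval_C, eval_finsetSum, mul_assoc,
      Finset.mul_sum _ _ (∏ i, _)]
    congr 1
    refine Finset.sum_congr rfl fun i _ => ?_
    rw [← Finset.mul_prod_erase _ _ (Finset.mem_univ i)]
    rw [mul_right_comm, mul_left_comm (1 + (ρ i : ℂ) * s), mul_inv_cancel₀ (hne i)]
    simp [eval_prod]
    ring
  have e2 : (((m : ℝ) + 1) • p - X * derivative p).eval s = p.eval s * ∑ i, w i := by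
    have : ∑ i, w i = (m + 1) - s * ∑ i, ρ i * w i := by
      rw [eq_sub_iff_add_eq, Finset.mul_sum, ← Finset.sum_add_distrib,
        Finset.sum_congr rfl (g := fun _ => 1) fun i _ => by
          have := hne i
          simp only [w]
          field_simp]
      simp
    rw [this]
    simp [e1]
    ring
  have hN : ∀ i, 0 < Complex.normSq (1 + (ρ i : ℂ) * s) := fun i => Complex.normSq_pos.2 (hne i)
  rw [e2, eval_smul, e1]
  refine ⟨Or.inr (mul_ne_zero (hg s (Or.inl hs)) fun h0 => ?_), ?_⟩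
  · have h1 : 0 < ∑ i, s.im * (s * w i).im := Finset.sum_pos (fun i _ => by
      have : s.im * (s * w i).im = s.im ^ 2 / Complex.normSq (1 + (ρ i : ℂ) * s) := by
        simp [w]; ring
      rw [this]
      exact div_pos (by positivity) (hN i)) Finset.univ_nonempty
    rw [← Finset.mul_sum, ← Complex.im_sum, ← Finset.mul_sum, h0] at h1
    simp at h1
  · have h1 : ∀ i j, s.im * (ρ i * w i * star (w j)).im + s.im * (ρ j * w j * star (w i)).im
        ≤ 0 := fun i j => by
      have : s.im * (ρ i * w i * star (w j)).im + s.im * (ρ j * w j * star (w i)).im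
          = -((s.im * (ρ i - ρ j)) ^ 2 / (Complex.normSq (1 + (ρ i : ℂ) * s) *
            Complex.normSq (1 + (ρ j : ℂ) * s))) := by
        have := (hN i).ne'
        have := (hN j).ne'
        simp only [w, Complex.star_def, Complex.mul_im, Complex.mul_re, Complex.conj_re,
          Complex.conj_im, Complex.inv_re, Complex.inv_im, Complex.ofReal_re, Complex.ofReal_im,
          Complex.add_re, Complex.add_im, Complex.one_re, Complex.one_im]
        field_simp
        ring
      rw [this, neg_nonpos]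
      exact div_nonneg (sq_nonneg _) (mul_pos (hN i) (hN j)).le
    have h2 : ∑ i, ∑ j, s.im * (ρ i * w i * star (w j)).im ≤ 0 := by
      have := Finset.sum_nonpos fun i (_ : i ∈ Finset.univ) =>
        Finset.sum_nonpos fun j (_ : j ∈ Finset.univ) => h1 i j
      simp only [Finset.sum_add_distrib] at this
      rw [Finset.sum_comm (f := fun i j => s.im * (ρ j * w j * star (w i)).im)] at this
      linarith
    have h3 : (s.im • (p.eval s * ∑ i, ρ i * w i) * star (p.eval s * ∑ i, w i)).im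
        = Complex.normSq (p.eval s) * ∑ i, ∑ j, s.im * (ρ i * w i * star (w j)).im := by
      simp only [← Finset.mul_sum, ← Complex.im_sum, ← Finset.sum_mul, ← star_sum]
      simp [Complex.normSq_apply]
      ring
    rw [h3]
    exact mul_nonpos_of_nonneg_of_nonpos (Complex.normSq_nonneg _) h2

open Polynomial in
theorem uni (hK : IsCompact K) (m : ℕ) : ∀ T : E →ₗ[ℝ] ℂ[X], (∀ f, (T f).natDegree ≤ m) →
    (∀ f, ((T f).eval 0).im = 0) → (∀ f ∈ K, ¬Disc K f → Good (T f)) → ∀ f ∈ K, Good (T f) := by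
  induction m with
  | zero =>
    intro T h1 _ _ f _
    rw [eq_C_of_natDegree_le_zero (h1 f)]
    by_cases h : (T f).coeff 0 = 0
    · exact Or.inl (by simp [h])
    · exact Or.inr fun s _ => by simpa using h
  | succ m ih =>
    intro T h1 h2 h3
    let evs : (E →ₗ[ℝ] ℂ[X]) → ℂ → E →ₗ[ℝ] ℂ := fun T s => (leval s).restrictScalars ℝ ∘ₗ T
    let D : E →ₗ[ℝ] ℂ[X] := (derivative.restrictScalars ℝ) ∘ₗ T
    let S : E →ₗ[ℝ] ℂ[X] := ((m : ℝ) + 1) • T - LinearMap.mulLeft ℝ X ∘ₗ D
    have hS : ∀ f, S f = ((m : ℝ) + 1) • T f - X * derivative (T f) := fun f => rfl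
    have hm : (m : ℂ) + 1 ≠ 0 := by exact_mod_cast m.succ_ne_zero
    have h0 : ∀ f, (S f).eval 0 = (m + 1) * (T f).eval 0 := fun f => by simp [hS]
    have hz : ∀ f ∈ K, (T f).eval 0 = 0 → T f = 0 := fun f hf h => Polynomial.funext fun z => by
      simpa [evs] using zero_of hK (evs T z) (Complex.reLm ∘ₗ evs T 0) (fun f hf hd h => by
        rcases h3 f hf hd with h4 | h4
        · simp [evs, h4]
        · exact absurd (Complex.ext (by simpa [evs] using h) (h2 f)) (h4 0 (Or.inr rfl)))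
        f hf (by simp [evs, h])
    have h4 := ih S (fun f => natDegree_le_iff_coeff_eq_zero.2 fun j hj => by
      obtain ⟨j, rfl⟩ : ∃ i, j = i + 1 := ⟨j - 1, by omega⟩
      rw [hS, coeff_sub, coeff_smul, coeff_X_mul, coeff_derivative]
      rcases (by omega : j = m ∨ m + 1 < j + 1) with rfl | h
      · simp [mul_comm]
      · simp [coeff_eq_zero_of_natDegree_lt ((h1 f).trans_lt h)]) (fun f => by simp [h0, h2])
      fun f hf hd => by
        by_cases h : T f = 0
        · exact Or.inl (by simp [hS, h])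
        refine Or.inr fun s hs => ?_
        rcases hs with hs | rfl
        · exact (good_step (h1 f) (h3 f hf hd) hs).1.resolve_left h
        · rw [h0]; exact mul_ne_zero hm fun h5 => h (hz f hf h5)
    have h5 : ∀ f ∈ K, ∀ s ∈ Om, (S f).eval s = 0 → T f = 0 := fun f hf s hs h => hz f hf (by
      have := (h4 f hf).resolve_right fun h6 => h6 s hs h
      exact (mul_eq_zero.1 ((h0 f).symm.trans (by simp [this]))).resolve_left hm)
    intro f hf
    refine or_iff_not_imp_left.2 fun hne s hs h => hne ?_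
    rcases hs with hs | rfl
    swap
    · exact hz f hf h
    have := phase hK (evs S s) (evs (s.im • D) s) (fun f hf h => by
      simp [evs, D, h5 f hf s (Or.inl hs) h]) (fun f hf hd => (good_step (h1 f) (h3 f hf hd) hs).2)
      f hf
    refine h5 f hf s (Or.inl hs) ?_
    have e1 : (S f).eval s = -(s * (derivative (T f)).eval s) := by simp [hS, h]
    have e2 : (evs (s.im • D) s f * star (evs S s f)).im
        = s.im ^ 2 * Complex.normSq ((derivative (T f)).eval s) := by
      simp [evs, e1, D, Complex.normSq_apply]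
      ring
    rw [e2] at this
    rw [e1, Complex.normSq_eq_zero.1 (le_antisymm (nonpos_of_mul_nonpos_right this (by positivity))
      (Complex.normSq_nonneg _)), mul_zero, neg_zero]

theorem target_hom (hK : IsCompact K) {n k : ℕ} {V : Set (Fin n → ℝ)}
    (T : E →ₗ[ℝ] MvPolynomial (Fin n) ℝ) (hT : ∀ f, (T f).IsHomogeneous k)
    (h : ∀ f ∈ K, ¬Disc K f → T f ∈ HV V ∪ {0}) : ∀ f ∈ K, T f ∈ HV V ∪ {0} := by
  intro f hf
  by_cases h0 : T f = 0
  · exact Or.inr h0
  refine Or.inl ⟨⟨k, hT f⟩, fun e he => hyp_of_good (hT f) (fun h1 => h0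
    (MvPolynomial.funext fun x => ?_)) fun α => uni hK k ((pl _ _).toLinearMap ∘ₗ T)
      (fun f => natDegree_pl (hT f) _ _) (fun f => by simp [eval_pl, aeval_ofReal])
      (fun f hf hd => good_of_mem (h f hf hd) he α) f hf⟩
  simpa [evl_apply] using zero_of hK (Complex.ofRealAm.toLinearMap ∘ₗ evl x ∘ₗ T) (evl e ∘ₗ T)
    (fun f hf hd h1 => by
      rcases h f hf hd with h2 | h2
      · exact absurd (by simpa [evl_apply] using h1) (h2.2 e he).1
      · simp [Set.mem_singleton_iff.1 h2]) f hf (by simpa [evl_apply] using h1)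

theorem target (hK : IsCompact K) {n : ℕ} {V : Set (Fin n → ℝ)}
    (T : E →ₗ[ℝ] MvPolynomial (Fin n) ℝ)
    (h : ∀ f ∈ K, ¬Disc K f → T f ∈ HV V ∪ {0}) : ∀ f ∈ K, T f ∈ HV V ∪ {0} := by
  let S : ℕ → E →ₗ[ℝ] MvPolynomial (Fin n) ℝ := fun k => MvPolynomial.homogeneousComponent k ∘ₗ T
  have h1 : ∀ f ∈ K, ¬Disc K f → ∃ d, ∀ k, S k f = if k = d then T f else 0 := fun f hf hd => by
    rcases h f hf hd with ⟨⟨d, hd⟩, -⟩ | h0
    · exact ⟨d, fun k => MvPolynomial.homogeneousComponent_of_mem hd⟩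
    · exact ⟨0, fun k => by simp [S, Set.mem_singleton_iff.1 h0]⟩
  intro f hf
  by_cases h0 : ∀ k, S k f = 0
  · refine Or.inr ((MvPolynomial.sum_homogeneousComponent (T f)).symm.trans ?_)
    exact Finset.sum_eq_zero fun k _ => h0 k
  obtain ⟨k, hk⟩ := not_forall.1 h0
  obtain ⟨y, hy⟩ : ∃ y, MvPolynomial.eval y (S k f) ≠ 0 :=
    not_forall.1 fun h => hk (MvPolynomial.funext fun x => by simpa using h x)
  have h2 : ∀ j, j ≠ k → S j f = 0 := fun j hj => MvPolynomial.funext fun x => by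
    have := prod_zero hK (evl x ∘ₗ S j) (evl y ∘ₗ S k) (fun f hf hd => by
      obtain ⟨d, hd⟩ := h1 f hf hd
      by_cases hjd : j = d
      · simp [hd k, ← hjd, hj.symm]
      · simp [hd j, hjd]) f hf
    simpa [evl_apply, hy] using this
  have h3 : T f = S k f := by
    refine (MvPolynomial.sum_homogeneousComponent (T f)).symm.trans
      (Finset.sum_eq_single k (fun j _ hj => h2 j hj) fun hk' => ?_)
    exact MvPolynomial.homogeneousComponent_eq_zero _ _ (by simpa using hk')
  rw [h3]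
  refine target_hom hK (S k) (fun f => MvPolynomial.homogeneousComponent_isHomogeneous _ _)
    (fun f hf hd => ?_) f hf
  obtain ⟨d, hd'⟩ := h1 f hf hd
  rw [hd']
  split_ifs
  · exact h f hf hd
  · exact Or.inr rfl

end Pool.Agent.MP_3d209c_an.H45
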